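import Pool.Agent.H72.BF.Targets2

open Polynomial Finset Filter
open Pool.Agent.H72.BF

namespace Pool.Agent.H35.BF

/-- package of a violating pair at scale `j` -/
def Good {N M : ℕ} (d : ℕ) (lam0 : ℂ) (mu : Fin M → ℂ) (Hj : ℝ) (cj : ℝ)
    (Ψ : MvPolynomial (Fin N × Fin M) ℤ) (v : Fin N → Fin M → ℤ)
    (P : MvPolynomial (Fin (N + 1)) ℤ) : Prop :=
  (∀ i k, |(v i k : ℝ)| ≤ Hj) ∧
  MvPolynomial.eval (fun x : Fin N × Fin M => v x.1 x.2) Ψ ≠ 0 ∧ P ≠ 0 ∧ P.totalDegree ≤ d ∧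
  (∀ m : Fin (N + 1) →₀ ℕ, |((P.coeff m : ℤ) : ℝ)| ≤ Hj) ∧
  Hj ^ cj * ‖MvPolynomial.aeval (tup lam0 mu v) P‖ < 1

theorem gtf (h1 : BakerFeldman) (h2 : T_PKG) (h3 : T_BFF) (h4 : T_EVP) (h5 : T_CLR)
    (h6 : T_GTA) : T_GTF := by
  classical
  intro N M d lam0 mu hli halg0 halg hcount
  by_contra hcon
  push Not at hcon
  -- scales
  have hex : ∀ j : ℕ, ∃ H : ℝ, 2 ≤ H ∧ ∀ Ψ : MvPolynomial (Fin N × Fin M) ℤ, Ψ ≠ 0 →
      (∀ i : Fin N, MvPolynomial.IsWeightedHomogeneous (fun x : Fin N × Fin M =>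
        if x.1 = i then 1 else 0) Ψ ((N + 1 + d).choose (N + 2))) →
      (∀ m : Fin N × Fin M →₀ ℕ, |((Ψ.coeff m : ℤ) : ℝ)| ≤ H ^ ((j : ℝ) + 1)) →
      ∃ v P, Good d lam0 mu H ((j : ℝ) + 1) Ψ v P := by
    intro j
    obtain ⟨H, hH, hh⟩ := hcon ((j : ℝ) + 1) (by positivity)
    refine ⟨H, hH, fun Ψ h0 hw hc => ?_⟩
    obtain ⟨v, hv, hv2, P, hP0, hPd, hPc, hPv⟩ := hh Ψ h0 hw hc
    exact ⟨v, P, hv, hv2, hP0, hPd, hPc, hPv⟩
  choose H hH hbad using hex
  obtain ⟨P⟩ := h2 H hH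
  have hind0 := h3 h1 (M + 1) (Fin.cons lam0 mu) hli (by
    intro j
    refine Fin.cases ?_ (fun i => ?_) j
    · simpa using halg0
    · simpa using halg i) H P
  have hind : LinearIndependent P.kb
      (Fin.cons 1 (Fin.cons (P.cst lam0) (fun j => P.cst (mu j))) : Fin (M + 2) → P.F) := by
    convert hind0 using 2
    funext j
    refine Fin.cases ?_ (fun i => ?_) j
    · simp
    · simp
  obtain ⟨Ψ, hΨ0, hΨw, hΨ⟩ := h6 P.kk P.kb P.F N M d (P.cst lam0) (fun j => P.cst (mu j)) hind hcount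
  obtain ⟨q, R, c0, hqB, hq0, hRb, hRq⟩ := h5 H P {m // m ∈ Ψ.support} (fun m => Ψ.coeff m.1)
  -- the integer polynomials
  let Ψs : ℕ → MvPolynomial (Fin N × Fin M) ℤ := fun j =>
    ∑ m : {m // m ∈ Ψ.support}, MvPolynomial.monomial m.1 (R m j)
  have hcoef : ∀ j m, (Ψs j).coeff m = if h : m ∈ Ψ.support then R ⟨m, h⟩ j else 0 := by
    intro j m
    simp only [Ψs, MvPolynomial.coeff_sum, MvPolynomial.coeff_monomial]
    split_ifs with h
    · rw [Finset.sum_eq_single ⟨m, h⟩]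
      · simp
      · intro b _ hb
        have : b.1 ≠ m := fun h' => hb (Subtype.ext h')
        simp [this]
      · intro h'; exact absurd (Finset.mem_univ _) h'
    · refine Finset.sum_eq_zero fun b _ => ?_
      have : b.1 ≠ m := fun h' => h (h' ▸ b.2)
      simp [this]
  have hRB : ∀ m, P.Bd (R m) := fun m => P.bd_of_le c0 (hRb m)
  have hcb : ∀ j m, |(((Ψs j).coeff m : ℤ) : ℝ)| ≤ H j ^ c0 := by
    intro j m
    rw [hcoef]
    split_ifs with h
    · exact hRb _ j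
    · simp only [Int.cast_zero, abs_zero]
      exact (P.one_le_pow j c0).trans' zero_le_one
  have hsupp : ∀ j, (Ψs j).support ⊆ Ψ.support := by
    intro j m hm
    rw [MvPolynomial.mem_support_iff, hcoef] at hm
    by_contra h
    simp [h] at hm
  have hhom : ∀ j (i : Fin N), MvPolynomial.IsWeightedHomogeneous (fun x : Fin N × Fin M =>
        if x.1 = i then 1 else 0) (Ψs j) ((N + 1 + d).choose (N + 2)) := by
    intro j i m hm
    have : m ∈ Ψ.support := hsupp j (MvPolynomial.mem_support_iff.2 hm)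
    exact hΨw i (MvPolynomial.mem_support_iff.1 this)
  have hne : ∀ᶠ j in (hyperfilter ℕ : Filter ℕ), Ψs j ≠ 0 := by
    obtain ⟨m, hm⟩ := MvPolynomial.ne_zero_iff.1 hΨ0
    have hm' : m ∈ Ψ.support := MvPolynomial.mem_support_iff.2 hm
    have h7 : P.evZ (R ⟨m, hm'⟩) ≠ 0 := by
      rw [← hRq ⟨m, hm'⟩]
      refine mul_ne_zero ?_ (P.evZ_ne_zero hqB hq0)
      intro h8
      exact hm (by exact_mod_cast h8)
    filter_upwards [P.evZ_dich (hRB _) h7] with j hj h9
    have := hcoef j m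
    rw [h9, dif_pos hm'] at this
    simp only [MvPolynomial.coeff_zero] at this
    exact hj this.symm
  have hlarge : ∀ᶠ j in (hyperfilter ℕ : Filter ℕ), c0 ≤ j := by
    have : ∀ᶠ j in (Filter.cofinite : Filter ℕ), c0 ≤ j := by
      rw [Nat.cofinite_eq_atTop]
      exact Filter.eventually_ge_atTop c0
    exact Filter.hyperfilter_le_cofinite this
  have hgood : ∀ᶠ j in (hyperfilter ℕ : Filter ℕ), ∃ v Q, Good d lam0 mu (H j) ((j : ℝ) + 1) (Ψs j) v Q := by
    filter_upwards [hne, hlarge] with j h8 h9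
    refine hbad j (Ψs j) h8 (hhom j) fun m => (hcb j m).trans ?_
    rw [← Real.rpow_natCast]
    refine Real.rpow_le_rpow_of_exponent_le (by linarith [hH j]) ?_
    have : (c0 : ℝ) ≤ j := by exact_mod_cast h9
    linarith
  have hch : ∀ j : ℕ, ∃ (v : Fin N → Fin M → ℤ) (Q : MvPolynomial (Fin (N + 1)) ℤ),
      (∀ i k, |(v i k : ℝ)| ≤ H j) ∧ Q.totalDegree ≤ d ∧
      (∀ m : Fin (N + 1) →₀ ℕ, |((Q.coeff m : ℤ) : ℝ)| ≤ H j) ∧
      ((∃ v Q, Good d lam0 mu (H j) ((j : ℝ) + 1) (Ψs j) v Q) →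
        Good d lam0 mu (H j) ((j : ℝ) + 1) (Ψs j) v Q) := by
    intro j
    by_cases h : ∃ v Q, Good d lam0 mu (H j) ((j : ℝ) + 1) (Ψs j) v Q
    · obtain ⟨v, Q, hg⟩ := h
      exact ⟨v, Q, hg.1, hg.2.2.2.1, hg.2.2.2.2.1, fun _ => hg⟩
    · refine ⟨0, 0, fun i k => ?_, by simp, fun m => ?_, fun h' => absurd h' h⟩
      · simp; linarith [hH j]
      · simp; linarith [hH j]
  choose v Q hvb hQd hQc hG using hch
  have hGe : ∀ᶠ j in (hyperfilter ℕ : Filter ℕ),
      Good d lam0 mu (H j) ((j : ℝ) + 1) (Ψs j) (v j) (Q j) := by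
    filter_upwards [hgood] with j hj
    exact hG j hj
  -- residues
  have hvB : ∀ i k, P.Bd (fun j => v j i k) := fun i k => P.bd_of_le 1 (fun j => by
    simpa using hvb j i k)
  obtain ⟨Q', hQ'd, hQ'c, hQ'e⟩ := h4 H P (Fin (N + 1)) d 1 Q hQd (fun j m => by
    simpa using hQc j m)
  have hQ'0 : Q' ≠ 0 := by
    intro h0
    have hz : ∀ m : Fin (N + 1) →₀ ℕ, ∀ᶠ j in (hyperfilter ℕ : Filter ℕ), (Q j).coeff m = 0 := by
      intro m
      have h8 := hQ'c m
      rw [h0] at h8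
      simp only [MvPolynomial.coeff_zero, ZeroMemClass.coe_zero] at h8
      exact (P.evZ_eq_zero (P.bd_of_le 1 (fun j => by simpa using hQc j m))).1 h8.symm
    let D : Fin (N + 1) →₀ ℕ := Finsupp.equivFunOnFinite.symm (fun _ => d)
    have hall : ∀ᶠ j in (hyperfilter ℕ : Filter ℕ), ∀ m ∈ Finset.Icc 0 D, (Q j).coeff m = 0 :=
      (Filter.eventually_all_finset _).2 fun m _ => hz m
    obtain ⟨j, hj, hj2⟩ := (hall.and hGe).exists
    refine hj2.2.2.1 ?_
    ext m
    rw [MvPolynomial.coeff_zero]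
    by_contra hm
    refine hm (hj m ?_)
    rw [Finset.mem_Icc]
    refine ⟨fun i => Nat.zero_le _, fun i => ?_⟩
    have h8 := MvPolynomial.le_totalDegree (MvPolynomial.mem_support_iff.2 hm)
    have h9 : m i ≤ m.sum fun _ e => e := by
      by_cases hi : i ∈ m.support
      · exact Finset.single_le_sum (f := fun i => m i) (fun _ _ => Nat.zero_le _) hi
      · rw [Finsupp.notMem_support_iff.1 hi]; exact Nat.zero_le _
    show m i ≤ D i
    simp only [D, Finsupp.equivFunOnFinite_symm_apply_apply]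
    exact h9.trans (h8.trans (hQd j))
  -- the point
  have hxO : ∀ i, (fun j => tup lam0 mu (v j) i) ∈ P.O := by
    intro i
    refine Fin.cases ?_ (fun i => ?_) i
    · simpa [tup] using P.const_mem lam0
    · have : (fun j => tup lam0 mu (v j) i.succ) = ∑ k, (fun j => ((v j i k : ℤ) : ℂ)) * (fun _ => mu k) := by
        funext j
        simp [tup]
      rw [this]
      exact P.O.sum_mem fun k _ => P.O.mul_mem (hvB i k) (P.const_mem _)
  let v' : Fin N → Fin M → P.kk := fun i k => ⟨P.evZ (fun j => v j i k), P.evZ_mem (hvB i k)⟩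
  have hx' : (fun i => P.ev (fun j => tup lam0 mu (v j) i)) =
      (Fin.cons (P.cst lam0) (fun i => ∑ k, algebraMap P.kk P.F (v' i k) * P.cst (mu k)) :
        Fin (N + 1) → P.F) := by
    funext i
    refine Fin.cases ?_ (fun i => ?_) i
    · simp [tup, Pkg.cst]
    · have : (fun j => tup lam0 mu (v j) i.succ) = ∑ k, (fun j => ((v j i k : ℤ) : ℂ)) * (fun _ => mu k) := by
        funext j
        simp [tup]
      rw [this, P.ev_sum _ _ (fun k _ => P.O.mul_mem (hvB i k) (P.const_mem _))]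
      simp only [Fin.cons_succ]
      refine Finset.sum_congr rfl fun k _ => ?_
      rw [P.ev_mul (hvB i k) (P.const_mem _)]
      rfl
  obtain ⟨hval1, hval2⟩ := hQ'e (fun j => tup lam0 mu (v j)) hxO
  have hval0 : P.ev (fun j => MvPolynomial.aeval (tup lam0 mu (v j)) (Q j)) = 0 := by
    rw [P.ev_eq_zero hval1]
    intro c
    have hlarge2 : ∀ᶠ j in (hyperfilter ℕ : Filter ℕ), c ≤ j := by
      have : ∀ᶠ j in (Filter.cofinite : Filter ℕ), c ≤ j := by
        rw [Nat.cofinite_eq_atTop]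
        exact Filter.eventually_ge_atTop c
      exact Filter.hyperfilter_le_cofinite this
    filter_upwards [hGe, hlarge2] with j hj hj2
    have h8 := hj.2.2.2.2.2
    have h9 : H j ^ c ≤ H j ^ ((j : ℝ) + 1) := by
      rw [← Real.rpow_natCast]
      refine Real.rpow_le_rpow_of_exponent_le (by linarith [hH j]) ?_
      have : (c : ℝ) ≤ j := by exact_mod_cast hj2
      linarith
    have h10 : ‖MvPolynomial.aeval (tup lam0 mu (v j)) (Q j)‖ * H j ^ c ≤
        H j ^ ((j : ℝ) + 1) * ‖MvPolynomial.aeval (tup lam0 mu (v j)) (Q j)‖ := by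
      rw [mul_comm]
      exact mul_le_mul_of_nonneg_right h9 (norm_nonneg _)
    linarith
  rw [hval0, hx'] at hval2
  have hfin := hΨ v' ⟨Q', hQ'0, hQ'd, hval2⟩
  -- contradiction
  obtain ⟨Ψ', -, hΨ'c, hΨ'e⟩ := h4 H P (Fin N × Fin M) Ψ.totalDegree c0 Ψs
    (fun j => Finset.sup_mono (hsupp j)) hcb
  have hΨ'eq : Ψ' = MvPolynomial.C (⟨P.evZ q, P.evZ_mem hqB⟩ : P.kk) * Ψ := by
    ext m
    rw [hΨ'c m, MvPolynomial.coeff_C_mul]
    simp only [hcoef]
    by_cases h : m ∈ Ψ.support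
    · simp only [h, dif_pos]
      have := hRq ⟨m, h⟩
      rw [Subfield.coe_mul, mul_comm]
      exact this.symm
    · simp only [h, dif_neg, not_false_iff]
      rw [MvPolynomial.notMem_support_iff.1 h]
      have h0 : P.evZ (fun _ => (0 : ℤ)) = 0 := by simpa using P.evZ_const 0
      simp [h0]
  obtain ⟨-, h12⟩ := hΨ'e (fun j x => ((v j x.1 x.2 : ℤ) : ℂ)) (fun x => hvB x.1 x.2)
  have h13 : MvPolynomial.aeval (fun x : Fin N × Fin M => P.ev (fun j => ((v j x.1 x.2 : ℤ) : ℂ))) Ψ' = 0 := by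
    have h14 : (fun x : Fin N × Fin M => P.ev (fun j => ((v j x.1 x.2 : ℤ) : ℂ))) =
        (algebraMap P.kk P.F) ∘ (fun x : Fin N × Fin M => v' x.1 x.2) := rfl
    rw [h14, MvPolynomial.aeval_algebraMap_apply, hΨ'eq]
    rw [MvPolynomial.aeval_eq_eval, map_mul, hfin]
    simp
  rw [h13] at h12
  have h15 : (fun j => MvPolynomial.aeval (fun x : Fin N × Fin M => ((v j x.1 x.2 : ℤ) : ℂ)) (Ψs j)) =
      fun j => ((MvPolynomial.eval (fun x : Fin N × Fin M => v j x.1 x.2) (Ψs j) : ℤ) : ℂ) := by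
    funext j
    have := MvPolynomial.aeval_algebraMap_apply (B := ℂ) (fun x : Fin N × Fin M => v j x.1 x.2) (Ψs j)
    simp only [MvPolynomial.aeval_eq_eval] at this
    exact this
  rw [h15] at h12
  have hBd : P.Bd (fun j => MvPolynomial.eval (fun x : Fin N × Fin M => v j x.1 x.2) (Ψs j)) := by
    have := (hΨ'e (fun j x => ((v j x.1 x.2 : ℤ) : ℂ)) (fun x => hvB x.1 x.2)).1
    rw [h15] at this
    exact this
  have h16 := (P.evZ_eq_zero hBd).1 h12.symm
  obtain ⟨j, hj, hj2⟩ := (h16.and hGe).exists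
  exact hj2.2.1 hj

end Pool.Agent.H35.BF
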