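import Pool.Agent.H35.BF.RD
import Mathlib.RingTheory.Norm.Transitivity
import Mathlib.RingTheory.IntegralClosure.IntegrallyClosed

open Polynomial Finset Filter

namespace Pool.Agent.H35.BF.NR

open Pool.Agent.H72.BF Pool.Agent.H35.BF.RD

/-- the split form -/
noncomputable def NN {Ω : Type} [CommRing Ω] {m e : ℕ} (ω : Fin e → Fin m → Ω) :
    (MvPolynomial (Fin m) Ω)[X] :=
  ∏ i, (X - C (∑ j, MvPolynomial.C (ω i j) * MvPolynomial.X j))

theorem NN_monic {Ω : Type} [Field Ω] {m e : ℕ} (ω : Fin e → Fin m → Ω) : (NN ω).Monic :=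
  Polynomial.monic_prod_of_monic _ _ fun _ _ => monic_X_sub_C _

theorem NN_natDegree {Ω : Type} [Field Ω] {m e : ℕ} (ω : Fin e → Fin m → Ω) :
    (NN ω).natDegree = e := by
  rw [NN, Polynomial.natDegree_prod_of_monic _ _ fun _ _ => monic_X_sub_C _]
  simp only [natDegree_X_sub_C]
  simp

/-- the norm form has coefficients in the base field -/
theorem norm_form (L E Ω : Type) [Field L] [CharZero L] [Field E] [Algebra L E]
    [FiniteDimensional L E] [Field Ω] [IsAlgClosed Ω] [Algebra L Ω] (m : ℕ) (w : Fin m → E)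
    (e : ℕ) (σ : Fin e ≃ (E →ₐ[L] Ω)) :
    ∃ N : (MvPolynomial (Fin m) L)[X],
      N.map (MvPolynomial.map (algebraMap L Ω)) = NN (fun i j => σ i (w j)) := by
  classical
  let b := Module.finBasis L E
  let M : Fin m → Matrix (Fin (Module.finrank L E)) (Fin (Module.finrank L E)) L :=
    fun j => Algebra.leftMulMatrix b (w j)
  let MM : Matrix (Fin (Module.finrank L E)) (Fin (Module.finrank L E)) (MvPolynomial (Fin m) L) :=
    ∑ j, (MvPolynomial.X j : MvPolynomial (Fin m) L) • (M j).map MvPolynomial.C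
  refine ⟨MM.charpoly, ?_⟩
  have hcz : CharZero Ω := charZero_of_injective_algebraMap (algebraMap L Ω).injective
  have hinf : (Set.range (algebraMap L Ω)).Infinite :=
    Set.infinite_range_of_injective (algebraMap L Ω).injective
  have key : ∀ (v : Fin m → L) (x : L),
      ((MM.charpoly.map (MvPolynomial.map (algebraMap L Ω))).map
        (MvPolynomial.eval (fun j => algebraMap L Ω (v j)))).eval (algebraMap L Ω x) =
      ((NN (fun i j => σ i (w j))).map
        (MvPolynomial.eval (fun j => algebraMap L Ω (v j)))).eval (algebraMap L Ω x) := by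
    intro v x
    have h1 : (MM.charpoly.map (MvPolynomial.map (algebraMap L Ω))).map
        (MvPolynomial.eval (fun j => algebraMap L Ω (v j))) =
        (MM.charpoly.map (MvPolynomial.eval v)).map (algebraMap L Ω) := by
      rw [Polynomial.map_map, Polynomial.map_map]
      congr 1
      ext y : 2 <;> simp
    rw [h1, Polynomial.eval_map_apply, ← Matrix.charpoly_map, Matrix.eval_charpoly]
    have h2 : Matrix.scalar _ x - (MvPolynomial.eval v).mapMatrix MM =
        Algebra.leftMulMatrix b (algebraMap L E x - ∑ j, algebraMap L E (v j) * w j) := by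
      rw [map_sub, map_sum, AlgHom.commutes]
      congr 1
      rw [map_sum]
      refine Finset.sum_congr rfl fun j _ => ?_
      rw [map_mul, AlgHom.commutes]
      ext p q
      simp [M, Matrix.algebraMap_eq_diagonal]
    have h3 : ((MvPolynomial.eval v).mapMatrix MM) = MM.map (MvPolynomial.eval v) := rfl
    rw [← h3, h2, ← Algebra.norm_eq_matrix_det, Algebra.norm_eq_prod_embeddings L Ω,
      ← Equiv.prod_comp σ, NN, Polynomial.map_prod, Polynomial.eval_prod]
    refine Finset.prod_congr rfl fun i _ => ?_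
    rw [Polynomial.map_sub, Polynomial.map_X, Polynomial.map_C, eval_sub, eval_X, eval_C, map_sum,
      map_sub, map_sum, AlgHom.commutes]
    congr 1
    refine Finset.sum_congr rfl fun j _ => ?_
    rw [map_mul, map_mul, AlgHom.commutes, MvPolynomial.eval_C, MvPolynomial.eval_X, mul_comm]
  have key2 : ∀ (v : Fin m → L),
      ((MM.charpoly.map (MvPolynomial.map (algebraMap L Ω))).map
        (MvPolynomial.eval (fun j => algebraMap L Ω (v j)))) =
      ((NN (fun i j => σ i (w j))).map
        (MvPolynomial.eval (fun j => algebraMap L Ω (v j)))) := by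
    intro v
    apply Polynomial.eq_of_infinite_eval_eq
    refine hinf.mono ?_
    rintro _ ⟨x, rfl⟩
    exact key v x
  ext n : 1
  refine MvPolynomial.funext_set (fun _ => Set.range (algebraMap L Ω)) (fun _ => hinf) ?_
  intro y hy
  have hy2 : ∀ i, ∃ x, algebraMap L Ω x = y i := fun i => hy i trivial
  choose v hv using hy2
  have h4 := congrArg (fun P => Polynomial.coeff P n) (key2 v)
  simp only [Polynomial.coeff_map] at h4
  have h5 : y = fun j => algebraMap L Ω (v j) := by
    ext j; exact (hv j).symm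
  rw [h5, Polynomial.coeff_map]
  exact h4

/-- an integral fraction is in the ring -/
theorem ic {A Ω : Type} [CommRing A] [IsDomain A] [IsIntegrallyClosed A] [Field Ω] [Algebra A Ω]
    (hinj : Function.Injective (algebraMap A Ω)) (p q : A)
    (h : IsIntegral A (algebraMap A Ω p / algebraMap A Ω q)) :
    ∃ a, algebraMap A Ω a = algebraMap A Ω p / algebraMap A Ω q := by
  let f : FractionRing A →ₐ[A] Ω := IsFractionRing.liftAlgHom (g := Algebra.ofId A Ω) hinj
  have h1 : f (algebraMap A _ p / algebraMap A _ q) = algebraMap A Ω p / algebraMap A Ω q := by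
    rw [map_div₀, AlgHom.commutes, AlgHom.commutes]
  rw [← h1] at h
  have h2 := (isIntegral_algHom_iff f f.injective).mp h
  obtain ⟨a, ha⟩ := IsIntegrallyClosed.isIntegral_iff.mp h2
  refine ⟨a, ?_⟩
  rw [← h1, ← ha, AlgHom.commutes]

/-- lifting coefficientwise -/
theorem lifts {A Ω : Type} [CommRing A] [CommRing Ω] (f : A →+* Ω) {m : ℕ}
    (N : (MvPolynomial (Fin m) Ω)[X]) (h : ∀ n α, ∃ a, f a = (N.coeff n).coeff α) :
    ∃ H : (MvPolynomial (Fin m) A)[X], H.map (MvPolynomial.map f) = N := by
  have h1 : N ∈ Polynomial.lifts (MvPolynomial.map (σ := Fin m) f) := by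
    rw [Polynomial.lifts_iff_coeff_lifts]
    intro n
    rw [MvPolynomial.mem_range_map_iff_coeffs_subset]
    intro c hc
    obtain ⟨α, _, hα⟩ := MvPolynomial.mem_coeffs_iff.mp hc
    obtain ⟨a, ha⟩ := h n α
    exact ⟨a, by rw [ha, hα]⟩
  exact (Polynomial.mem_lifts _).mp h1

/-- clearing denominators -/
theorem clear {A Ω : Type} [CommRing A] [IsDomain A] [IsIntegrallyClosed A] [Field Ω] [Algebra A Ω]
    (hinj : Function.Injective (algebraMap A Ω)) (m e : ℕ) (ω : Fin e → Fin m → Ω) (P : A)
    (hP : ∀ i j, IsIntegral A (algebraMap A Ω P * ω i j))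
    (hN : ∀ n α, ∃ p q : A, ((NN ω).coeff n).coeff α = algebraMap A Ω p / algebraMap A Ω q) :
    ∃ H : (MvPolynomial (Fin m) A)[X], H.map (MvPolynomial.map (algebraMap A Ω)) =
      C (MvPolynomial.C (algebraMap A Ω (P ^ e))) * NN ω := by
  apply NR.lifts
  intro n α
  let O := integralClosure A Ω
  let x : Fin e → Fin m → O := fun i j => ⟨algebraMap A Ω P * ω i j, hP i j⟩
  let PP : (MvPolynomial (Fin m) O)[X] := ∏ i, (C (MvPolynomial.C (algebraMap A O P)) * X -
    C (∑ j, MvPolynomial.C (x i j) * MvPolynomial.X j))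
  have h1 : PP.map (MvPolynomial.map (algebraMap O Ω)) =
      C (MvPolynomial.C (algebraMap A Ω (P ^ e))) * NN ω := by
    have h2 : (C (MvPolynomial.C (algebraMap A Ω (P ^ e))) : (MvPolynomial (Fin m) Ω)[X]) =
        ∏ _i : Fin e, C (MvPolynomial.C (algebraMap A Ω P)) := by
      rw [Finset.prod_const, Finset.card_univ, Fintype.card_fin, map_pow, map_pow, map_pow]
    rw [h2, NN, ← Finset.prod_mul_distrib, Polynomial.map_prod]
    refine Finset.prod_congr rfl fun i _ => ?_
    rw [Polynomial.map_sub, Polynomial.map_mul, Polynomial.map_C, Polynomial.map_X, Polynomial.map_C,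
      MvPolynomial.map_C, mul_sub, ← C_mul, map_sum, Finset.mul_sum]
    congr 1
    refine congrArg C (Finset.sum_congr rfl fun j _ => ?_)
    rw [map_mul, MvPolynomial.map_C, MvPolynomial.map_X, ← mul_assoc, ← MvPolynomial.C_mul]
    rfl
  obtain ⟨p, q, hpq⟩ := hN n α
  have h3 : ((C (MvPolynomial.C (algebraMap A Ω (P ^ e))) * NN ω).coeff n).coeff α =
      algebraMap A Ω (P ^ e * p) / algebraMap A Ω q := by
    rw [coeff_C_mul, MvPolynomial.coeff_C_mul, hpq, map_mul, mul_div_assoc]
  rw [h3]
  apply ic hinj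
  rw [← h3, ← h1, Polynomial.coeff_map, MvPolynomial.coeff_map]
  exact ((PP.coeff n).coeff α).2

theorem td_natDegree {K : Type} [Field K] {R : K[X][X]} {D : ℕ} (h : TD R D) : R.natDegree ≤ D := by
  rw [natDegree_le_iff_coeff_eq_zero]
  intro n hn
  ext k
  rw [coeff_zero]
  exact h n k (by omega)

theorem td_lead {K : Type} [Field K] {R : K[X][X]} {D : ℕ} (h : TD R D) : R.leadingCoeff.natDegree ≤ D := by
  rw [natDegree_le_iff_coeff_eq_zero]
  intro k hk
  exact h _ k (by omega)

end Pool.Agent.H35.BF.NR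

open Pool.Agent.H72.BF Pool.Agent.H35.BF.RD Pool.Agent.H35.BF.NR in
theorem Pool.Agent.H35.BF.nrm : T_NRM := by
  classical
  intro D m
  refine ⟨D ^ m + D ^ m * (m * D), ?_⟩
  intro K F _ _ _ _ _ t ht w hw
  let Ω := AlgebraicClosure F
  let evt : K[X] →+* F := (aeval t : K[X] →ₐ[K] F).toRingHom
  have hevt : Function.Injective evt := transcendental_iff_injective.mp ht
  let ψ : K[X] →+* Ω := (algebraMap F Ω).comp evt
  have hψ : Function.Injective ψ := (algebraMap F Ω).injective.comp hevt
  choose R hR0 hRD hRw using fun j => (relD_iff t (w j) D).mp (hw j)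
  let L := IntermediateField.adjoin K {t}
  have hczL : CharZero L := charZero_of_injective_algebraMap (algebraMap K L).injective
  let tL : L := IntermediateField.AdjoinSimple.gen K t
  let θ : K[X] →+* L := (aeval tL : K[X] →ₐ[K] L).toRingHom
  have hθ : ∀ p, ((θ p : L) : F) = evt p := by
    intro p
    have := Polynomial.aeval_algHom_apply L.val tL p
    exact this.symm
  have hθinj : Function.Injective θ := by
    intro a b hab
    apply hevt
    rw [← hθ, ← hθ, hab]
  have hint : ∀ j, IsIntegral L (w j) := by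
    intro j
    refine isAlgebraic_iff_isIntegral.mp ⟨(R j).map θ, ?_, ?_⟩
    · exact (Polynomial.map_ne_zero_iff hθinj).mpr (hR0 j)
    · rw [aeval_def, eval₂_map]
      have : (algebraMap L F).comp θ = evt := RingHom.ext hθ
      rw [this]
      exact hRw j
  let E := IntermediateField.adjoin L (Set.range w)
  have hfd : FiniteDimensional L E := by
    have := (Set.finite_range w).to_subtype
    exact IntermediateField.finiteDimensional_adjoin (fun x hx => by
      obtain ⟨i, rfl⟩ := hx
      exact hint i)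
  let wE : Fin m → E := fun j => ⟨w j, IntermediateField.subset_adjoin _ _ ⟨j, rfl⟩⟩
  let e := Fintype.card (E →ₐ[L] Ω)
  let σ : Fin e ≃ (E →ₐ[L] Ω) := (Fintype.equivFin _).symm
  let ω : Fin e → Fin m → Ω := fun i j => σ i (wE j)
  have hLΩ : ∀ p, algebraMap L Ω (θ p) = ψ p := by
    intro p
    rw [IsScalarTower.algebraMap_apply L F Ω]
    change algebraMap F Ω ((θ p : L) : F) = _
    rw [hθ]; rfl
  have hroot : ∀ (z : E) (Q : K[X][X]), Q.eval₂ evt (z : F) = 0 → ∀ i, Q.eval₂ ψ (σ i z) = 0 := by
    intro z Q hQ i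
    have h1 : Q.eval₂ ((algebraMap L E).comp θ) z = 0 := by
      apply Subtype.val_injective
      have h2 := Polynomial.hom_eval₂ Q ((algebraMap L E).comp θ) E.val.toRingHom z
      have h3 : E.val.toRingHom.comp ((algebraMap L E).comp θ) = evt := RingHom.ext hθ
      rw [h3] at h2
      exact h2.trans hQ
    have h2 := Polynomial.hom_eval₂ Q ((algebraMap L E).comp θ) (σ i).toRingHom z
    have h3 : (σ i).toRingHom.comp ((algebraMap L E).comp θ) = ψ := by
      apply RingHom.ext
      intro p
      change σ i (algebraMap L E (θ p)) = ψ p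
      rw [AlgHom.commutes, hLΩ]
    rw [h1, map_zero, h3] at h2
    exact h2.symm
  have hωinj : ∀ i i', i ≠ i' → ω i ≠ ω i' := by
    intro i i' hii h
    apply hii
    apply σ.injective
    refine IntermediateField.algHom_ext_of_eq_adjoin L (S := E) rfl ?_
    rintro x ⟨j, rfl⟩
    exact congrFun h j
  have hωroot : ∀ i j, (R j).eval₂ ψ (ω i j) = 0 := fun i j => hroot (wE j) (R j) (hRw j) i
  have he : e ≤ D ^ m := by
    have h1 : (Finset.univ.image ω).card = e := by
      rw [Finset.card_image_of_injective _ (fun i i' h => by_contra fun hne => hωinj i i' hne h),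
        Finset.card_univ, Fintype.card_fin]
    rw [← h1]
    have h2 : Finset.univ.image ω ⊆ Fintype.piFinset (fun j => ((R j).map ψ).roots.toFinset) := by
      intro x hx
      obtain ⟨i, _, rfl⟩ := Finset.mem_image.mp hx
      rw [Fintype.mem_piFinset]
      intro j
      rw [Multiset.mem_toFinset, mem_roots ((Polynomial.map_ne_zero_iff hψ).mpr (hR0 j)), IsRoot,
        eval_map]
      exact hωroot i j
    refine le_trans (Finset.card_le_card h2) ?_
    rw [Fintype.card_piFinset]
    refine le_trans (Finset.prod_le_pow_card _ _ D fun j _ => ?_) (by simp)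
    exact le_trans (Multiset.toFinset_card_le _) (le_trans (card_roots' _)
      (le_trans natDegree_map_le (td_natDegree (hRD j))))
  -- the coefficients
  obtain ⟨N, hN⟩ := norm_form L E Ω m wE e σ
  have hN' : N.map (MvPolynomial.map (algebraMap L Ω)) = NN ω := hN
  have hfrac : ∀ n α, ∃ p q : K[X], ((NN ω).coeff n).coeff α = ψ p / ψ q := by
    intro n α
    rw [← hN', Polynomial.coeff_map, MvPolynomial.coeff_map]
    obtain ⟨r, s, hrs⟩ := (IntermediateField.mem_adjoin_simple_iff K _).mp ((N.coeff n).coeff α).2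
    refine ⟨r, s, ?_⟩
    rw [IsScalarTower.algebraMap_apply L F Ω]
    change algebraMap F Ω (((N.coeff n).coeff α : L) : F) = _
    rw [hrs, map_div₀]
    rfl
  let P : K[X] := ∏ j, (R j).leadingCoeff
  have hP0 : P ≠ 0 := Finset.prod_ne_zero_iff.mpr fun j _ => leadingCoeff_ne_zero.mpr (hR0 j)
  have hPd : P.natDegree ≤ m * D := by
    refine le_trans (natDegree_prod_le _ _) (le_trans (Finset.sum_le_sum fun j _ => td_lead (hRD j)) ?_)
    simp
  have hI : ∃ H : (MvPolynomial (Fin m) K[X])[X], H.map (MvPolynomial.map ψ) =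
      C (MvPolynomial.C (ψ (P ^ e))) * NN ω := by
    let _ : Algebra K[X] Ω := ψ.toAlgebra
    refine clear (A := K[X]) (Ω := Ω) hψ m e ω P ?_ hfrac
    intro i j
    change ψ.IsIntegralElem (ψ P * ω i j)
    have h1 : P = (∏ j' ∈ Finset.univ.erase j, (R j').leadingCoeff) * (R j).leadingCoeff :=
      (Finset.prod_erase_mul _ _ (Finset.mem_univ j)).symm
    rw [h1, map_mul, mul_assoc]
    have h2 : ψ.IsIntegralElem (ψ (R j).leadingCoeff * ω i j) :=
      ψ.isIntegralElem_leadingCoeff_mul (R j) (ω i j) (hωroot i j)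
    exact RingHom.IsIntegralElem.mul ψ (ψ.isIntegralElem_map) h2
  have hex : ∃ n, ∃ q : K[X], q ≠ 0 ∧ q.natDegree = n ∧ ∃ H : (MvPolynomial (Fin m) K[X])[X],
      H.map (MvPolynomial.map ψ) = C (MvPolynomial.C (ψ q)) * NN ω :=
    ⟨_, P ^ e, pow_ne_zero _ hP0, rfl, hI⟩
  obtain ⟨g, hg0, hgn, G, hG⟩ := Nat.find_spec hex
  have hmin : ∀ q : K[X], q ≠ 0 → (∃ H : (MvPolynomial (Fin m) K[X])[X],
      H.map (MvPolynomial.map ψ) = C (MvPolynomial.C (ψ q)) * NN ω) → g.natDegree ≤ q.natDegree := by
    intro q hq0 hq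
    rw [hgn]
    exact Nat.find_min' hex ⟨q, hq0, rfl, hq⟩
  refine ⟨Ω, inferInstance, inferInstance, e, ω, g, G, ?_, ?_, hg0, ?_, hωinj, hG, ?_, ?_⟩
  · exact le_trans he (Nat.le_add_right _ _)
  · refine le_trans (hmin _ (pow_ne_zero _ hP0) hI) ?_
    rw [natDegree_pow]
    exact le_trans (Nat.mul_le_mul he hPd) (Nat.le_add_left _ _)
  · let ι : E →ₐ[L] Ω := (IsScalarTower.toAlgHom L F Ω).comp E.val
    refine ⟨σ.symm ι, fun j => ?_⟩
    change σ (σ.symm ι) (wE j) = _
    rw [Equiv.apply_symm_apply]
    rfl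
  · intro c hc
    have h1 : ∀ n α, (X - C c) ∣ (G.coeff n).coeff α := by
      intro n α
      rw [dvd_iff_isRoot]
      have := congrArg (fun P => MvPolynomial.coeff α (Polynomial.coeff P n)) hc
      simp only [Polynomial.coeff_map, MvPolynomial.coeff_map, Polynomial.coeff_zero,
        MvPolynomial.coeff_zero] at this
      exact this
    have hlead : (G.coeff e).coeff 0 = g := by
      apply hψ
      have h2 := congrArg (fun P => MvPolynomial.coeff 0 (Polynomial.coeff P e)) hG
      simp only [Polynomial.coeff_map, MvPolynomial.coeff_map, coeff_C_mul,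
        MvPolynomial.coeff_C_mul] at h2
      have h3 := (NN_monic ω).coeff_natDegree
      rw [NN_natDegree] at h3
      rw [h2, h3]
      simp
    obtain ⟨g', hg'⟩ : (X - C c) ∣ g := by
      rw [← hlead]; exact h1 _ _
    have hg'0 : g' ≠ 0 := by
      rintro rfl
      rw [mul_zero] at hg'
      exact hg0 hg'
    have h4 : ∃ H : (MvPolynomial (Fin m) K[X])[X],
      H.map (MvPolynomial.map ψ) = C (MvPolynomial.C (ψ g')) * NN ω := by
      apply NR.lifts
      intro n α
      obtain ⟨a, ha⟩ := h1 n α
      refine ⟨a, ?_⟩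
      have hx0 : ψ (X - C c) ≠ 0 := by
        intro h
        exact (X_sub_C_ne_zero c) (hψ (by rw [h, map_zero]))
      apply mul_left_cancel₀ hx0
      rw [← map_mul, ← ha]
      have h2 := congrArg (fun P => MvPolynomial.coeff α (Polynomial.coeff P n)) hG
      simp only [Polynomial.coeff_map, MvPolynomial.coeff_map, coeff_C_mul,
        MvPolynomial.coeff_C_mul] at h2
      rw [h2, hg', map_mul, coeff_C_mul, MvPolynomial.coeff_C_mul, mul_assoc]
    have h5 := hmin g' hg'0 h4
    rw [hg', natDegree_mul (X_sub_C_ne_zero c) hg'0, natDegree_X_sub_C] at h5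
    omega
  · intro v Q hQ i
    have h1 : ((∑ j, algebraMap K E (v j) * wE j : E) : F) = ∑ j, algebraMap K F (v j) * w j := by
      push_cast
      rfl
    have h2 := hroot (∑ j, algebraMap K E (v j) * wE j) Q (by rw [h1]; exact hQ) i
    rw [map_sum] at h2
    have h3 : ∀ j, σ i (algebraMap K E (v j) * wE j) = algebraMap F Ω (algebraMap K F (v j)) * ω i j := by
      intro j
      rw [map_mul]
      congr 1
      have h4 : algebraMap K E (v j) = algebraMap L E (algebraMap K L (v j)) := rfl
      rw [h4, AlgHom.commutes]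
      rfl
    rw [Finset.sum_congr rfl fun j _ => h3 j] at h2
    exact h2
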