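import Pool.Agent.H72.BF.Targets4
import Mathlib.FieldTheory.Galois.Basic
import Mathlib.FieldTheory.Normal.Closure

open Polynomial Finset Filter

namespace Pool.Agent.H35.BF.FL

open Pool.Agent.H72.BF

/-- the stable scale gives a small set of moved elements -/
theorem count {G : Type} [Group G] [Finite G] {Ω : Type} [MulAction G Ω] (k : ℕ) (W : Fin k → Ω)
    (G0 : Subgroup G) (c : ℕ) (h : ∀ σ ∈ G0, Set.ncard {i | W i ≠ σ • W i} ≤ c) :
    ∃ J : Finset (Fin k), k ≤ J.card + 2 * c ∧ ∀ i ∈ J, ∀ σ ∈ G0, σ • W i = W i := by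
  classical
  have := Fintype.ofFinite G
  set J : Finset (Fin k) := Finset.univ.filter fun i => ∀ σ ∈ G0, σ • W i = W i with hJ
  refine ⟨J, ?_, fun i hi => (Finset.mem_filter.mp hi).2⟩
  set GG : Finset G := Finset.univ.filter fun σ => σ ∈ G0 with hGG
  have h1 : ∑ σ ∈ GG, (Finset.univ.filter fun i => W i ≠ σ • W i).card ≤ GG.card * c := by
    rw [← smul_eq_mul]
    refine Finset.sum_le_card_nsmul _ _ _ fun σ hσ => ?_
    have := h σ (Finset.mem_filter.mp hσ).2
    rw [Set.ncard_eq_toFinset_card'] at this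
    refine le_trans (Finset.card_le_card ?_) this
    intro i hi
    simpa using hi
  have h2 : ∑ σ ∈ GG, (Finset.univ.filter fun i => W i ≠ σ • W i).card =
      ∑ i : Fin k, (GG.filter fun σ => W i ≠ σ • W i).card := by
    simp only [Finset.card_filter]
    rw [Finset.sum_comm]
  have h3 : ∀ i ∈ Jᶜ, GG.card ≤ 2 * (GG.filter fun σ => W i ≠ σ • W i).card := by
    intro i hi
    have hi2 : ¬ ∀ σ ∈ G0, σ • W i = W i := by
      intro hc
      exact (Finset.mem_compl.mp hi) (Finset.mem_filter.mpr ⟨Finset.mem_univ _, hc⟩)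
    push Not at hi2
    obtain ⟨τ, hτ, hτ2⟩ := hi2
    have h4 : (GG.filter fun σ => ¬ (W i ≠ σ • W i)).card ≤ (GG.filter fun σ => W i ≠ σ • W i).card := by
      refine Finset.card_le_card_of_injOn (fun σ => τ * σ) ?_ (fun a _ b _ hab => mul_left_cancel hab)
      intro σ hσ
      have hσ' := Finset.mem_filter.mp (Finset.mem_coe.mp hσ)
      have hσG := (Finset.mem_filter.mp hσ'.1).2
      have hσ3 : W i = σ • W i := by
        by_contra hne
        exact hσ'.2 hne
      refine Finset.mem_coe.mpr (Finset.mem_filter.mpr ⟨Finset.mem_filter.mpr ⟨Finset.mem_univ _,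
        G0.mul_mem hτ hσG⟩, ?_⟩)
      rw [mul_smul, ← hσ3]
      exact fun h => hτ2 h.symm
    have h5 := Finset.card_filter_add_card_filter_not (s := GG) (fun σ => W i ≠ σ • W i)
    omega
  have hpos : 0 < GG.card := Finset.card_pos.mpr ⟨1, Finset.mem_filter.mpr ⟨Finset.mem_univ _, G0.one_mem⟩⟩
  have h6 : Jᶜ.card * GG.card ≤ 2 * (GG.card * c) := by
    calc Jᶜ.card * GG.card = ∑ i ∈ Jᶜ, GG.card := by rw [Finset.sum_const, smul_eq_mul]
      _ ≤ ∑ i ∈ Jᶜ, 2 * (GG.filter fun σ => W i ≠ σ • W i).card := Finset.sum_le_sum h3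
      _ = 2 * ∑ i ∈ Jᶜ, (GG.filter fun σ => W i ≠ σ • W i).card := by rw [Finset.mul_sum]
      _ ≤ 2 * ∑ i : Fin k, (GG.filter fun σ => W i ≠ σ • W i).card :=
        Nat.mul_le_mul_left _ (Finset.sum_le_sum_of_subset (Finset.subset_univ _))
      _ ≤ _ := by rw [← h2]; exact Nat.mul_le_mul_left _ h1
  have h7 : Jᶜ.card ≤ 2 * c := by
    have : Jᶜ.card * GG.card ≤ (2 * c) * GG.card := by
      calc _ ≤ _ := h6
        _ = _ := by ring
    exact Nat.le_of_mul_le_mul_right this hpos
  have h8 : J.card + Jᶜ.card = k := by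
    rw [Finset.card_add_card_compl, Fintype.card_fin]
  omega

/-- the Galois part -/
theorem galois (D : ℕ) (hD : 1 ≤ D) (h2 : T_GSC) (h : ℕ)
    (hh : ∀ (A : Type) [AddCommGroup A] [Module ℚ A] (k : ℕ)
      (δ : Fin (Fintype.card {x : Fin (D + 1) × Fin (D + 1) // x.1 ≠ x.2}) → Fin k → A),
      (∀ p, h ≤ Set.ncard {i | δ p i ≠ 0}) →
      ∃ I : Finset (Fin k), ∀ p, ∑ i ∈ I, δ p i ≠ 0)
    (L M : Type) [Field L] [CharZero L] [Field M] [Algebra L M] [FiniteDimensional L M]
    (k : ℕ) (W : Fin k → M)
    (hW : ∀ I : Finset (Fin k), ∃ g : L[X], g ≠ 0 ∧ g.natDegree ≤ D ∧ aeval (∑ i ∈ I, W i) g = 0) :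
    ∃ G0 : Subgroup (M ≃ₐ[L] M), G0.index ≤ D ∧ ∃ J : Finset (Fin k),
      k ≤ J.card + 2 * (4 ^ D * h) ∧ ∀ i ∈ J, ∀ σ ∈ G0, σ (W i) = W i := by
  classical
  have hcz : CharZero M := charZero_of_injective_algebraMap (algebraMap L M).injective
  obtain ⟨G0, hG1, hG2⟩ := h2 D h (M ≃ₐ[L] M) (fun σ τ => Set.ncard {i | σ (W i) ≠ τ (W i)})
    (by intro x; simp) (by intro x y; simp only [ne_comm])
    (by
      intro x y z
      refine le_trans (Set.ncard_le_ncard (t := {i | x (W i) ≠ y (W i)} ∪ {i | y (W i) ≠ z (W i)})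
        ?_ (Set.toFinite _)) (Set.ncard_union_le _ _)
      intro i hi
      by_contra hc
      simp only [Set.mem_union, Set.mem_setOf_eq, not_or, not_not] at hc
      exact hi (hc.1.trans hc.2))
    (by
      intro g x y
      simp)
    hD (by
      intro X hX
      by_contra hcard
      push Not at hcard
      let e : Fin (D + 1) → (M ≃ₐ[L] M) := fun a => (X.equivFin.symm (Fin.castLE hcard a)).1
      have he : Function.Injective e := by
        intro a b hab
        have := X.equivFin.symm.injective (Subtype.ext hab)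
        exact Fin.castLE_injective hcard this
      have heX : ∀ a, e a ∈ X := fun a => (X.equivFin.symm (Fin.castLE hcard a)).2
      let pe := (Fintype.equivFin {x : Fin (D + 1) × Fin (D + 1) // x.1 ≠ x.2}).symm
      obtain ⟨I, hI⟩ := hh M k (fun p i => e (pe p).1.1 (W i) - e (pe p).1.2 (W i)) (by
        intro p
        have h3 := hX _ (heX (pe p).1.1) _ (heX (pe p).1.2) (fun hc => (pe p).2 (he hc))
        refine le_trans (le_of_lt h3) (le_of_eq ?_)
        congr 1
        ext i
        simp only [Set.mem_setOf_eq, ne_eq, sub_eq_zero])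
      obtain ⟨g, hg0, hgD, hg⟩ := hW I
      apply hg0
      have hinj : Function.Injective (fun a => e a (∑ i ∈ I, W i)) := by
        intro a b hab
        by_contra hne
        have h3 := hI (pe.symm ⟨(a, b), hne⟩)
        simp only [Equiv.apply_symm_apply, Finset.sum_sub_distrib] at h3
        apply h3
        rw [← map_sum, ← map_sum, sub_eq_zero]
        exact hab
      have h4 : g.map (algebraMap L M) = 0 := by
        refine Polynomial.eq_zero_of_natDegree_lt_card_of_eval_eq_zero _ hinj (fun a => ?_) ?_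
        · rw [Polynomial.eval_map_algebraMap]
          have : aeval (e a (∑ i ∈ I, W i)) g = e a (aeval (∑ i ∈ I, W i) g) := by
            rw [← Polynomial.aeval_algHom_apply]
          rw [this, hg, map_zero]
        · rw [Polynomial.natDegree_map, Fintype.card_fin]
          omega
      exact (Polynomial.map_eq_zero _).mp h4)
  refine ⟨G0, hG1, ?_⟩
  exact count k W G0 (4 ^ D * h) (fun σ hσ => by simpa using hG2 σ hσ)

end Pool.Agent.H35.BF.FL

open Pool.Agent.H72.BF Pool.Agent.H35.BF.FL in
theorem Pool.Agent.H35.BF.fld (h1 : T_LO) (h2 : T_GSC) : T_FLD := by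
  intro D
  obtain ⟨h, hh⟩ := h1 (Fintype.card {x : Fin (D + 1) × Fin (D + 1) // x.1 ≠ x.2})
  refine ⟨2 * (4 ^ D * h), ?_⟩
  intro L F _ _ _ _ k w hw
  rcases Nat.eq_zero_or_pos D with hD | hD
  · exfalso
    obtain ⟨g, hg0, hgD, hg⟩ := hw ∅
    rw [hD] at hgD
    rw [Polynomial.eq_C_of_natDegree_le_zero hgD] at hg hg0
    rw [aeval_C] at hg
    have := (map_eq_zero _).mp hg
    rw [this, C_0] at hg0
    exact hg0 rfl
  · have hint : ∀ i, IsIntegral L (w i) := by
      intro i
      obtain ⟨g, hg0, hgD, hg⟩ := hw {i}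
      rw [Finset.sum_singleton] at hg
      exact (isAlgebraic_iff_isIntegral).mp ⟨g, hg0, hg⟩
    let F1 := IntermediateField.adjoin L (Set.range w)
    have hF1 : FiniteDimensional L F1 := by
      have := (Set.finite_range w).to_subtype
      exact IntermediateField.finiteDimensional_adjoin (fun x hx => by
        obtain ⟨i, rfl⟩ := hx
        exact hint i)
    let Om := AlgebraicClosure L
    let M := IntermediateField.normalClosure L F1 Om
    have hM : FiniteDimensional L M := inferInstance
    have hMn : Normal L M := inferInstance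
    have hMg : IsGalois L M := IsGalois.mk
    let f : F1 →ₐ[L] M := (normalClosure.algHomEquiv L F1 Om).symm (IsAlgClosed.lift)
    have hwm : ∀ i, w i ∈ F1 := fun i => IntermediateField.subset_adjoin _ _ ⟨i, rfl⟩
    obtain ⟨G0, hG1, J, hJ1, hJ2⟩ := galois D hD h2 h hh L M k (fun i => f ⟨w i, hwm i⟩) (by
      intro I
      obtain ⟨g, hg0, hgD, hg⟩ := hw I
      refine ⟨g, hg0, hgD, ?_⟩
      rw [← map_sum, Polynomial.aeval_algHom_apply]
      have : aeval (∑ i ∈ I, (⟨w i, hwm i⟩ : F1)) g = 0 := by
        apply Subtype.val_injective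
        have h5 := Polynomial.aeval_algHom_apply F1.val (∑ i ∈ I, (⟨w i, hwm i⟩ : F1)) g
        rw [map_sum] at h5
        simp only [IntermediateField.val_mk] at h5
        rw [hg] at h5
        exact h5.symm
      rw [this, map_zero])
    let E1 : IntermediateField L F1 := (IntermediateField.fixedField G0).comap f
    have hfr : Module.finrank L E1 ≤ D := by
      have h6 : Module.finrank L (IntermediateField.fixedField G0) = G0.index := by
        rw [IntermediateField.finrank_eq_fixingSubgroup_index,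
          IntermediateField.fixingSubgroup_fixedField]
      refine le_trans ?_ (le_trans (le_of_eq h6) hG1)
      let φ : E1 →ₗ[L] (IntermediateField.fixedField G0) :=
        { toFun := fun x => ⟨f x.1, x.2⟩
          map_add' := fun x y => by ext; simp
          map_smul' := fun c x => Subtype.ext (f.toLinearMap.map_smul c x.1) }
      refine LinearMap.finrank_le_finrank_of_injective (f := φ) ?_
      intro x y hxy
      have := congrArg Subtype.val hxy
      exact Subtype.ext (f.injective this)
    refine ⟨J, IntermediateField.lift E1, hJ1, ?_, ?_, ?_⟩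
    · exact (IntermediateField.liftAlgEquiv E1).toLinearEquiv.finiteDimensional
    · rw [← (IntermediateField.liftAlgEquiv E1).toLinearEquiv.finrank_eq]
      exact hfr
    · intro i hi
      have h7 : (⟨w i, hwm i⟩ : F1) ∈ E1 := by
        change f ⟨w i, hwm i⟩ ∈ IntermediateField.fixedField G0
        rw [IntermediateField.mem_fixedField_iff]
        intro σ hσ
        exact hJ2 i hi σ hσ
      exact ⟨⟨w i, hwm i⟩, h7, rfl⟩
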