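import Pool.Agent.H72.BF.Targets4
import Mathlib.FieldTheory.Minpoly.IsIntegrallyClosed
import Mathlib.RingTheory.UniqueFactorizationDomain.GCDMonoid
import Mathlib.RingTheory.Polynomial.UniqueFactorization

open Polynomial Finset Filter

namespace Pool.Agent.H35.BF.PO

open Pool.Agent.H72.BF

section ufd

variable {A : Type} [CommRing A] [IsDomain A] [UniqueFactorizationMonoid A]

theorem step (a b P : A) (N : ℕ) (ha0 : a ≠ 0) (ha : a ^ N ∣ P) (hb : b ^ N ∣ P) :
    ∃ c, a ∣ c ∧ b ∣ c ∧ c ^ N ∣ P := by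
  obtain ⟨a', b', g, hrel, hga, hgb⟩ := UniqueFactorizationMonoid.exists_reduced_factors a ha0 b
  have hg0 : g ≠ 0 := by rintro rfl; exact ha0 (by rw [← hga, zero_mul])
  refine ⟨g * a' * b', ⟨b', by rw [hga]⟩, ⟨a', by rw [← hgb]; ring⟩, ?_⟩
  rw [← hga, mul_pow] at ha
  rw [← hgb, mul_pow] at hb
  obtain ⟨P1, hP1⟩ := ha
  have h1 : a' ^ N ∣ a' ^ N * P1 := Dvd.intro _ rfl
  have h2 : b' ^ N ∣ a' ^ N * P1 := by
    have : g ^ N * b' ^ N ∣ g ^ N * (a' ^ N * P1) := by
      rw [← mul_assoc, ← hP1]; exact hb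
    exact (mul_dvd_mul_iff_left (pow_ne_zero N hg0)).mp this
  have h3 : a' ^ N * b' ^ N ∣ a' ^ N * P1 := (IsRelPrime.pow hrel).mul_dvd h1 h2
  rw [mul_pow, mul_pow, mul_assoc, hP1, mul_assoc]
  exact mul_dvd_mul_left _ h3

theorem lcm_all {ι : Type} (s : Finset ι) (g : ι → A) (P : A) (N : ℕ) 
    (h : ∀ i ∈ s, g i ^ N ∣ P) (hP : P ≠ 0) (hN : N ≠ 0) : ∃ c, c ≠ 0 ∧ (∀ i ∈ s, g i ∣ c) ∧ c ^ N ∣ P := by
  classical
  induction s using Finset.induction_on with
  | empty => exact ⟨1, one_ne_zero, by simp, by simp⟩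
  | insert i s hi ih =>
    obtain ⟨c, hc0, hc1, hc2⟩ := ih fun j hj => h j (Finset.mem_insert_of_mem hj)
    obtain ⟨d, hd1, hd2, hd3⟩ := step c (g i) P N hc0 hc2 (h i (Finset.mem_insert_self _ _))
    refine ⟨d, ?_, ?_, hd3⟩
    · rintro rfl
      rw [zero_pow hN] at hd3
      exact hP (zero_dvd_iff.mp hd3)
    · intro j hj
      rcases Finset.mem_insert.mp hj with rfl | hj
      · exact hd2
      · exact (hc1 j hj).trans hd1

end ufd

variable {K F : Type} [Field K] [CharZero K] [Field F] [Algebra K F] {r : ℕ}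

/-- the scaled coefficients of the minimal polynomial are polynomials -/
def CI (t : Fin r → F) (w : F) (a : MvPolynomial (Fin r) K) : Prop :=
  ∀ j ≤ (minpoly (EE' K t) w).natDegree, ∃ e : MvPolynomial (Fin r) K,
    MvPolynomial.aeval t e = (MvPolynomial.aeval t a) ^ j *
      (((minpoly (EE' K t) w).coeff ((minpoly (EE' K t) w).natDegree - j) : EE' K t) : F)

theorem CI.mul {t : Fin r → F} {w : F} {a : MvPolynomial (Fin r) K} (h : CI t w a)
    (b : MvPolynomial (Fin r) K) : CI t w (a * b) := by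
  intro j hj
  obtain ⟨e, he⟩ := h j hj
  refine ⟨e * b ^ j, ?_⟩
  rw [map_mul, map_pow, he, map_mul]
  ring

theorem CI.dvd {t : Fin r → F} {w : F} {a b : MvPolynomial (Fin r) K} (h : CI t w a)
    (hab : a ∣ b) : CI t w b := by
  obtain ⟨c, rfl⟩ := hab
  exact h.mul c

theorem CI.red {t : Fin r → F} (ht : AlgebraicIndependent K t) {w : F}
    {a b c : MvPolynomial (Fin r) K} (hc : c ≠ 0) (ha : a ≠ 0) (hab : IsRelPrime a b)
    (h1 : CI t w (c * a)) (h2 : CI t w (c * b)) : CI t w c := by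
  intro j hj
  obtain ⟨e1, he1⟩ := h1 j hj
  obtain ⟨e2, he2⟩ := h2 j hj
  have hinj : Function.Injective (MvPolynomial.aeval t : MvPolynomial (Fin r) K →ₐ[K] F) := ht
  have h3 : e1 * (c * b) ^ j = e2 * (c * a) ^ j := by
    apply hinj
    rw [map_mul, map_mul, map_pow, map_pow, he1, he2]
    ring
  have h4 : e1 * b ^ j = e2 * a ^ j := by
    have h5 : c ^ j * (e1 * b ^ j) = c ^ j * (e2 * a ^ j) := by
      calc c ^ j * (e1 * b ^ j) = e1 * (c * b) ^ j := by ring
        _ = e2 * (c * a) ^ j := h3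
        _ = _ := by ring
    exact mul_left_cancel₀ (pow_ne_zero j hc) h5
  have h5 : a ^ j ∣ e1 := by
    have h6 : a ^ j ∣ e1 * b ^ j := ⟨e2, by rw [h4]; ring⟩
    exact (IsRelPrime.pow hab).dvd_of_dvd_mul_right h6
  obtain ⟨e, rfl⟩ := h5
  refine ⟨e, ?_⟩
  have ha0 : (MvPolynomial.aeval t a) ^ j ≠ 0 := by
    apply pow_ne_zero
    intro h
    exact ha (hinj (by rw [h, map_zero]))
  apply mul_left_cancel₀ ha0
  rw [map_mul, map_pow, map_mul] at he1
  rw [he1]
  ring

theorem mem_EE (t : Fin r → F) (a : MvPolynomial (Fin r) K) : MvPolynomial.aeval t a ∈ EE' K t := by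
  have h1 : MvPolynomial.aeval t a ∈ Algebra.adjoin K (Set.range t) := by
    rw [Algebra.adjoin_range_eq_range_aeval]
    exact ⟨a, rfl⟩
  exact IntermediateField.algebra_adjoin_le_adjoin K _ h1

/-- filtered integrality bounds the scaled coefficients -/
theorem ci_of_fint (h1 : T_FIE) {t : Fin r → F} (ht : AlgebraicIndependent K t) {w : F}
    (hw : IsIntegral (EE' K t) w) {a : MvPolynomial (Fin r) K} (ha : a ≠ 0) (E : ℕ)
    (h : FInt K t E (MvPolynomial.aeval t a * w)) :
    ∀ j ≤ (minpoly (EE' K t) w).natDegree, ∃ e : MvPolynomial (Fin r) K,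
    e.totalDegree ≤ E * j ∧ MvPolynomial.aeval t e = (MvPolynomial.aeval t a) ^ j *
      (((minpoly (EE' K t) w).coeff ((minpoly (EE' K t) w).natDegree - j) : EE' K t) : F) := by
  intro j hj
  obtain ⟨_, h2⟩ := h1 K F r t ht
  obtain ⟨c, hc0, hcE, hc⟩ := h2 E _ h
  set aL : EE' K t := ⟨MvPolynomial.aeval t a, mem_EE t a⟩ with haL
  have haL0 : aL ≠ 0 := by
    intro h3
    have h4 : MvPolynomial.aeval t a = 0 := congrArg Subtype.val h3
    exact ha ((injective_iff_map_eq_zero _).mp ht a h4)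
  have h5 : minpoly (EE' K t) (MvPolynomial.aeval t a * w) = (minpoly (EE' K t) w).scaleRoots aL := by
    have := IsIntegrallyClosed.minpoly_smul haL0 hw
    rw [← this]
    rfl
  rw [h5] at hc
  simp only [natDegree_scaleRoots, coeff_scaleRoots] at hc
  refine ⟨c j, hcE j, ?_⟩
  rw [← hc j hj]
  have h6 : (minpoly (EE' K t) w).natDegree - ((minpoly (EE' K t) w).natDegree - j) = j := by omega
  rw [h6]
  push_cast
  rw [mul_comm]

/-- and conversely -/
theorem fint_of_ci {t : Fin r → F} {w : F} (hw : IsIntegral (EE' K t) w)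
    {a : MvPolynomial (Fin r) K} (E : ℕ)
    (h : ∀ j ≤ (minpoly (EE' K t) w).natDegree, ∃ e : MvPolynomial (Fin r) K,
    (1 ≤ j → e.totalDegree ≤ E * j) ∧ MvPolynomial.aeval t e = (MvPolynomial.aeval t a) ^ j *
      (((minpoly (EE' K t) w).coeff ((minpoly (EE' K t) w).natDegree - j) : EE' K t) : F)) :
    FInt K t E (MvPolynomial.aeval t a * w) := by
  choose! e he1 he2 using h
  set n := (minpoly (EE' K t) w).natDegree with hn
  have hmon : (minpoly (EE' K t) w).Monic := minpoly.monic hw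
  refine ⟨n, fun j => if j = 0 then 1 else if j ≤ n then e j else 0, by simp, ?_, ?_⟩
  · intro i
    by_cases hi : i = 0
    · simp [hi]
    · simp only [if_neg hi]
      split_ifs with hin
      · exact he1 i hin (Nat.one_le_iff_ne_zero.mpr hi)
      · simp
  · have h3 : ∀ j ∈ range (n + 1), MvPolynomial.aeval t
        (if j = 0 then (1 : MvPolynomial (Fin r) K) else if j ≤ n then e j else 0) *
        (MvPolynomial.aeval t a * w) ^ (n - j) = (MvPolynomial.aeval t a) ^ n *
        ((((minpoly (EE' K t) w).coeff (n - j) : EE' K t) : F) * w ^ (n - j)) := by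
      intro j hj
      have hjn : j ≤ n := Nat.lt_succ_iff.mp (Finset.mem_range.mp hj)
      have h4 : MvPolynomial.aeval t
        (if j = 0 then (1 : MvPolynomial (Fin r) K) else if j ≤ n then e j else 0) =
          (MvPolynomial.aeval t a) ^ j * (((minpoly (EE' K t) w).coeff (n - j) : EE' K t) : F) := by
        by_cases hj0 : j = 0
        · rw [if_pos hj0, hj0, pow_zero, one_mul, map_one, Nat.sub_zero, hmon.coeff_natDegree]
          rfl
        · rw [if_neg hj0, if_pos hjn]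
          exact he2 j hjn
      rw [h4, mul_pow]
      have h5 : (MvPolynomial.aeval t a : F) ^ n = (MvPolynomial.aeval t a) ^ j *
          (MvPolynomial.aeval t a) ^ (n - j) := by
        rw [← pow_add]; congr 1; omega
      rw [h5]
      ring
    rw [Finset.sum_congr rfl h3, ← Finset.mul_sum]
    have h6 := Finset.sum_range_reflect (fun j =>
      (((minpoly (EE' K t) w).coeff j : EE' K t) : F) * w ^ j) (n + 1)
    have h7 : ∀ j, n + 1 - 1 - j = n - j := fun j => by omega
    simp only [h7] at h6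
    rw [h6]
    have h8 := minpoly.aeval (EE' K t) w
    rw [Polynomial.aeval_eq_sum_range] at h8
    have h9 : ∑ j ∈ range (n + 1), (((minpoly (EE' K t) w).coeff j : EE' K t) : F) * w ^ j = 0 := by
      rw [← h8]
      refine Finset.sum_congr rfl fun j _ => ?_
      rw [Algebra.smul_def]
      rfl
    rw [h9, mul_zero]

theorem exists_fint {t : Fin r → F} {w : F} (hw : IsIntegral (EE' K t) w)
    {a : MvPolynomial (Fin r) K} (h : CI t w a) : ∃ E, FInt K t E (MvPolynomial.aeval t a * w) := by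
  choose! e he using h
  refine ⟨(range ((minpoly (EE' K t) w).natDegree + 1)).sup fun j => (e j).totalDegree, ?_⟩
  refine fint_of_ci hw _ fun j hj => ⟨e j, fun hj1 => ?_, he j hj⟩
  refine le_trans (Finset.le_sup (f := fun j => (e j).totalDegree)
    (Finset.mem_range.mpr (Nat.lt_succ_of_le hj))) ?_
  exact Nat.le_mul_of_pos_right _ hj1

theorem CI.sub (h1 : T_FIE) (h2 : T_FIA) {t : Fin r → F} (ht : AlgebraicIndependent K t)
    {w w' : F} (hw : IsIntegral (EE' K t) w) (hw' : IsIntegral (EE' K t) w')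
    {a b : MvPolynomial (Fin r) K} (ha0 : a ≠ 0) (hb0 : b ≠ 0) (ha : CI t w a) (hb : CI t w' b) :
    CI t (w - w') (a * b) := by
  obtain ⟨i1, i2, i3, i4⟩ := h2 K F r t
  obtain ⟨E1, hE1⟩ := exists_fint hw ha
  obtain ⟨E2, hE2⟩ := exists_fint hw' hb
  have h3 : FInt K t (b.totalDegree + E1) (MvPolynomial.aeval t b * (MvPolynomial.aeval t a * w)) :=
    i4 _ _ _ _ (i1 b _ le_rfl) hE1
  have h4 : FInt K t (a.totalDegree + E2) (MvPolynomial.aeval t (-a) * (MvPolynomial.aeval t b * w')) :=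
    i4 _ _ _ _ (i1 (-a) _ (by rw [MvPolynomial.totalDegree_neg])) hE2
  have h5 := i3 (max (b.totalDegree + E1) (a.totalDegree + E2)) _ _ (i2 _ _ _ (le_max_left _ _) h3)
    (i2 _ _ _ (le_max_right _ _) h4)
  have h6 : MvPolynomial.aeval t b * (MvPolynomial.aeval t a * w) +
      MvPolynomial.aeval t (-a) * (MvPolynomial.aeval t b * w') =
      MvPolynomial.aeval t (a * b) * (w - w') := by
    rw [map_neg, map_mul]; ring
  rw [h6] at h5
  intro j hj
  obtain ⟨e, _, he⟩ := ci_of_fint h1 ht (hw.sub hw') (mul_ne_zero ha0 hb0) _ h5 j hj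
  exact ⟨e, he⟩

/-- the least denominator -/
theorem exists_min {t : Fin r → F} (ht : AlgebraicIndependent K t) {w : F} (D : ℕ)
    (p : MvPolynomial (Fin r) K) (hp0 : p ≠ 0) (hpD : p.totalDegree ≤ D) (hp : CI t w p) :
    ∃ g : MvPolynomial (Fin r) K, g ≠ 0 ∧ g.totalDegree ≤ D ∧ CI t w g ∧
      ∀ b, b ≠ 0 → CI t w b → g ∣ b := by
  classical
  have hex : ∃ n, ∃ g : MvPolynomial (Fin r) K, g ≠ 0 ∧ g.totalDegree = n ∧ CI t w g :=
    ⟨_, p, hp0, rfl, hp⟩
  obtain ⟨g, hg0, hgn, hg⟩ := Nat.find_spec hex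
  refine ⟨g, hg0, ?_, hg, ?_⟩
  · rw [hgn]
    exact le_trans (Nat.find_min' hex ⟨p, hp0, rfl, hp⟩) hpD
  · intro b hb0 hb
    obtain ⟨g', b', c, hrel, hcg, hcb⟩ := UniqueFactorizationMonoid.exists_reduced_factors g hg0 b
    have hc0 : c ≠ 0 := by rintro rfl; exact hg0 (by rw [← hcg, zero_mul])
    have hg'0 : g' ≠ 0 := by rintro rfl; exact hg0 (by rw [← hcg, mul_zero])
    have hc : CI t w c := CI.red ht hc0 hg'0 hrel (by rw [hcg]; exact hg) (by rw [hcb]; exact hb)
    have h3 : Nat.find hex ≤ c.totalDegree := Nat.find_min' hex ⟨c, hc0, rfl, hc⟩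
    have h4 : (c * g').totalDegree = c.totalDegree + g'.totalDegree :=
      MvPolynomial.totalDegree_mul_of_isDomain hc0 hg'0
    rw [hcg, hgn] at h4
    have h5 : g'.totalDegree = 0 := by omega
    have h6 := (MvPolynomial.totalDegree_eq_zero_iff_eq_C).mp h5
    have h7 : IsUnit g' := by
      rw [h6]
      refine (isUnit_iff_ne_zero.mpr ?_).map MvPolynomial.C
      intro h8
      rw [h8, map_zero] at h6
      exact hg'0 h6
    rw [← hcg]
    rw [← hcb]
    exact mul_dvd_mul_left _ (h7.dvd)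

theorem pow_deg (q : MvPolynomial (Fin r) K) (hq0 : q ≠ 0) (N : ℕ) :
    (q ^ N).totalDegree = N * q.totalDegree := by
  induction N with
  | zero => simp
  | succ N ih =>
    rw [pow_succ, MvPolynomial.totalDegree_mul_of_isDomain (pow_ne_zero _ hq0) hq0, ih]
    ring

end Pool.Agent.H35.BF.PO

open Pool.Agent.H72.BF Pool.Agent.H35.BF.PO in
theorem Pool.Agent.H35.BF.pole (h1 : T_FIE) (h2 : T_RFI) (h3 : T_FIA) : T_POLE := by
  classical
  intro K F _ _ _ _ r D k t w ht hw
  have halg : ∀ I : Finset (Fin k), IsIntegral (EE' K t) (∑ i ∈ I, w i) := by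
    intro I
    obtain ⟨_, g, hg0, _, hg⟩ := h2 K F r D t _ ht (hw I)
    exact isAlgebraic_iff_isIntegral.mp ⟨g, hg0, hg⟩
  have hp : ∀ I : Finset (Fin k), ∃ p : MvPolynomial (Fin r) K, p ≠ 0 ∧ p.totalDegree ≤ D ∧
      FInt K t D (MvPolynomial.aeval t p * ∑ i ∈ I, w i) := by
    intro I
    exact (h2 K F r D t _ ht (hw I)).1
  have hg : ∀ I : Finset (Fin k), ∃ g : MvPolynomial (Fin r) K, g ≠ 0 ∧ g.totalDegree ≤ D ∧
      CI t (∑ i ∈ I, w i) g ∧ ∀ b, b ≠ 0 → CI t (∑ i ∈ I, w i) b → g ∣ b := by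
    intro I
    obtain ⟨p, hp0, hpD, hp1⟩ := hp I
    refine exists_min ht D p hp0 hpD ?_
    intro j hj
    obtain ⟨e, _, he⟩ := ci_of_fint h1 ht (halg I) hp0 D hp1 j hj
    exact ⟨e, he⟩
  choose g hg0 hgD hg1 hg2 using hg
  have hdiv : ∀ (i : Fin k) (I : Finset (Fin k)), g {i} ∣ g I * g (symmDiff I {i}) := by
    intro i I
    apply hg2 {i} _ (mul_ne_zero (hg0 _) (hg0 _))
    rw [Finset.sum_singleton]
    by_cases hi : i ∈ I
    · have h4 : symmDiff I {i} = I.erase i := by
        ext x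
        simp only [Finset.mem_symmDiff, Finset.mem_singleton, Finset.mem_erase]
        grind
      have h5 : w i = ∑ j ∈ I, w j - ∑ j ∈ symmDiff I {i}, w j := by
        rw [h4, ← Finset.add_sum_erase I w hi]
        ring
      rw [h5]
      exact CI.sub h1 h3 ht (halg _) (halg _) (hg0 _) (hg0 _) (hg1 _) (hg1 _)
    · have h4 : symmDiff I {i} = insert i I := by
        ext x
        simp only [Finset.mem_symmDiff, Finset.mem_singleton, Finset.mem_insert]
        grind
      have h5 : w i = ∑ j ∈ symmDiff I {i}, w j - ∑ j ∈ I, w j := by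
        rw [h4, Finset.sum_insert hi]
        ring
      rw [h5, mul_comm]
      exact CI.sub h1 h3 ht (halg _) (halg _) (hg0 _) (hg0 _) (hg1 _) (hg1 _)
  set P : MvPolynomial (Fin r) K := ∏ I : Finset (Fin k), g I with hP
  have hP0 : P ≠ 0 := Finset.prod_ne_zero_iff.mpr fun I _ => hg0 I
  have hN : 2 ^ k ≠ 0 := by positivity
  have hpow : ∀ i : Fin k, g {i} ^ (2 ^ k) ∣ P ^ 2 := by
    intro i
    have h4 : ∏ I : Finset (Fin k), g (symmDiff I {i}) = P := by
      refine Fintype.prod_equiv (Function.Involutive.toPerm (fun I => symmDiff I {i}) ?_) _ _ ?_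
      · intro I
        exact symmDiff_symmDiff_cancel_right _ _
      · intro I; rfl
    have h5 : P ^ 2 = ∏ I : Finset (Fin k), (g I * g (symmDiff I {i})) := by
      rw [Finset.prod_mul_distrib, h4, sq]
    rw [h5]
    have h6 : g {i} ^ (2 ^ k) = ∏ I : Finset (Fin k), g {i} := by
      rw [Finset.prod_const, Finset.card_univ, Fintype.card_finset, Fintype.card_fin]
    rw [h6]
    exact Finset.prod_dvd_prod_of_dvd _ _ fun I _ => hdiv i I
  obtain ⟨q, hq0, hq1, hq2⟩ := lcm_all (Finset.univ : Finset (Fin k)) (fun i => g {i}) (P ^ 2) (2 ^ k)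
    (fun i _ => hpow i) (pow_ne_zero 2 hP0) hN
  have hPd : P.totalDegree ≤ 2 ^ k * D := by
    refine le_trans (MvPolynomial.totalDegree_finsetProd _ _) ?_
    refine le_trans (Finset.sum_le_sum fun I _ => hgD I) ?_
    rw [Finset.sum_const, Finset.card_univ, Fintype.card_finset, Fintype.card_fin, smul_eq_mul]
  have hqd : q.totalDegree ≤ 2 * D := by
    obtain ⟨c, hc⟩ := hq2
    have hc0 : c ≠ 0 := by rintro rfl; rw [mul_zero] at hc; exact pow_ne_zero 2 hP0 hc
    have h4 := congrArg MvPolynomial.totalDegree hc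
    rw [MvPolynomial.totalDegree_mul_of_isDomain (pow_ne_zero _ hq0) hc0,
      pow_deg q hq0] at h4
    have h5 := MvPolynomial.totalDegree_pow P 2
    have h6 : 2 ^ k * q.totalDegree ≤ 2 ^ k * (2 * D) := by nlinarith
    exact Nat.le_of_mul_le_mul_left h6 (by positivity)
  have hDD : 2 * D ≤ 2 * D * D := by
    rcases Nat.eq_zero_or_pos D with h | h
    · rw [h]
    · nlinarith
  refine ⟨q, hq0, hqd.trans hDD, ?_⟩
  intro i
  obtain ⟨p, hp0, hpD, hp1⟩ := hp {i}
  have hwi := halg {i}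
  rw [Finset.sum_singleton] at hwi hp1
  have hCIq : CI t (w i) q := by
    have h4 := hg1 {i}
    rw [Finset.sum_singleton] at h4
    exact h4.dvd (hq1 i (Finset.mem_univ i))
  refine fint_of_ci hwi _ fun j hj => ?_
  obtain ⟨e, he⟩ := hCIq j hj
  obtain ⟨c, hcD, hc⟩ := ci_of_fint h1 ht hwi hp0 D hp1 j hj
  refine ⟨e, fun _ => ?_, he⟩
  have h4 : e * p ^ j = c * q ^ j := by
    apply ht
    rw [map_mul, map_mul, map_pow, map_pow, he, hc]
    ring
  by_cases he0 : e = 0
  · rw [he0, MvPolynomial.totalDegree_zero]; exact Nat.zero_le _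
  · have h5 := congrArg MvPolynomial.totalDegree h4
    rw [MvPolynomial.totalDegree_mul_of_isDomain he0 (pow_ne_zero _ hp0)] at h5
    have h6 := MvPolynomial.totalDegree_mul c (q ^ j)
    have h7 := MvPolynomial.totalDegree_pow q j
    have h8 : j * q.totalDegree ≤ j * (2 * D * D) := Nat.mul_le_mul_left _ (hqd.trans hDD)
    calc e.totalDegree ≤ D * j + j * (2 * D * D) := by omega
      _ = (2 * D * D + D) * j := by ring
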