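import Pool.Agent.H72.BF.Targets2

open Polynomial Finset Filter
open Pool.Agent.H72.BF
open scoped IntermediateField

namespace Pool.Agent.H35.BF

variable {K F : Type} [Field K] [CharZero K] [IsAlgClosed K] [Field F] [Algebra K F]

/-- `y` is an affine function of `t` -/
def Lin (K : Type) {F : Type} [Field K] [Field F] [Algebra K F] (t y : F) : Prop :=
  ∃ l : K[X], l.natDegree ≤ 1 ∧ y = aeval t l

def TyI (K : Type) {F : Type} [Field K] [Field F] [Algebra K F] (t y s : F) (q : K[X]) : Prop :=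
  ∃ l : K[X], l.natDegree ≤ 1 ∧ q.natDegree ≤ 2 ∧ y = aeval t l + s ∧ s ^ 2 = aeval t q

def TyII (K : Type) {F : Type} [Field K] [Field F] [Algebra K F] (t y : F) (e q : K[X]) : Prop :=
  e ≠ 0 ∧ e.natDegree ≤ 1 ∧ q.natDegree ≤ 2 ∧ aeval t e * y = aeval t q

/-- independence of `1, t, u, v` -/
def I4 (K : Type) {F : Type} [Field K] [Field F] [Algebra K F] (t u v : F) : Prop :=
  ∀ l : K[X], l.natDegree ≤ 1 → ∀ c d : K,
    aeval t l + algebraMap K F c * u + algebraMap K F d * v = 0 → l = 0 ∧ c = 0 ∧ d = 0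

theorem I4.symm {t u v : F} (h : I4 K t u v) : I4 K t v u := by
  intro l hl c d h0
  obtain ⟨h1, h2, h3⟩ := h l hl d c (by linear_combination h0)
  exact ⟨h1, h3, h2⟩

theorem I4.not_lin {t u v : F} (h : I4 K t u v) : ¬ Lin K t u := by
  rintro ⟨l, hl, hu⟩
  have := (h l hl (-1) 0 (by simp [← hu])).2.1
  simp at this

theorem mem_L (t : F) (p : K[X]) : aeval t p ∈ K⟮t⟯ := by
  rw [IntermediateField.mem_adjoin_simple_iff]
  exact ⟨p, 1, by simp⟩

theorem transc {t u v : F} (h : I4 K t u v) : Transcendental K t := by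
  intro halg
  have hint : IsIntegral K t := halg.isIntegral
  have h1 := IsAlgClosed.degree_eq_one_of_irreducible K (minpoly.irreducible hint)
  obtain ⟨c, hc⟩ := minpoly.mem_range_of_degree_eq_one K t h1
  have := (h (X - C c) (by simp) 0 0 (by simp [hc])).1
  exact X_sub_C_ne_zero c this

theorem inj {t : F} (h : Transcendental K t) {p q : K[X]} (hpq : aeval t p = aeval t q) :
    p = q := by
  have := transcendental_iff_injective.1 h
  exact this hpq

theorem ne0 {t : F} (h : Transcendental K t) {p : K[X]} (hp : p ≠ 0) : aeval t p ≠ 0 := by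
  intro h0
  exact hp (inj h (by simpa using h0))

theorem lin_of_root {L : IntermediateField K F} {s x z : F} (hs : s ∉ L) (hx : x ∈ L) (hz : z ∈ L)
    (h : x + z * s = 0) : z = 0 := by
  by_contra hz0
  refine hs ?_
  have : s = -x / z := by
    field_simp
    linear_combination h
  rw [this]
  exact L.div_mem (L.neg_mem hx) hz

theorem tyI_mem {t : F} (h : Transcendental K t) {y s : F} {q : K[X]} (hT : TyI K t y s q)
    (hy : y ∈ K⟮t⟯) : Lin K t y := by
  obtain ⟨l, hl, hq, hys, hs⟩ := hT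
  have hsL : s ∈ K⟮t⟯ := by
    have : s = y - aeval t l := by rw [hys]; ring
    rw [this]
    exact K⟮t⟯.sub_mem hy (mem_L t l)
  rw [IntermediateField.mem_adjoin_simple_iff] at hsL
  obtain ⟨g, f, hgf⟩ := hsL
  have : ∃ r : K[X], s = aeval t r := by
    by_cases hf : f = 0
    · exact ⟨0, by simp [hgf, hf]⟩
    have hf' := ne0 h hf
    have h1 : g ^ 2 = q * f ^ 2 := by
      apply inj h
      rw [map_pow, map_mul, map_pow, ← hs, hgf]
      field_simp
    have h2 : f ^ 2 ∣ g ^ 2 := ⟨q, by rw [h1]; ring⟩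
    have h3 : f ∣ g := (UniqueFactorizationMonoid.pow_dvd_pow_iff_dvd two_ne_zero).1 h2
    obtain ⟨r, hr⟩ := h3
    refine ⟨r, ?_⟩
    rw [hgf, hr, map_mul]
    field_simp
  obtain ⟨r, hr⟩ := this
  have hq2 : q = r ^ 2 := by
    apply inj h
    rw [← hs, hr, map_pow]
  have hr1 : r.natDegree ≤ 1 := by
    rw [hq2, natDegree_pow] at hq
    omega
  exact ⟨l + r, (natDegree_add_le _ _).trans (max_le hl hr1), by rw [map_add, hys, hr]⟩

theorem tyII_mem {t : F} (h : Transcendental K t) {y : F} {e q : K[X]} (hT : TyII K t y e q) :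
    y ∈ K⟮t⟯ := by
  obtain ⟨he, -, -, hy⟩ := hT
  have he' := ne0 h he
  have : y = aeval t q / aeval t e := by
    field_simp
    linear_combination hy
  rw [this]
  exact K⟮t⟯.div_mem (mem_L t q) (mem_L t e)

theorem caseB {t u v w : F} {α β γ : K} (hα : α ≠ 0) (hβ : β ≠ 0)
    (hrel : algebraMap K F α * u + algebraMap K F β * v + algebraMap K F γ * w = 0)
    {su sw : F} {qu qw : K[X]} (hu : TyI K t u su qu) (hw : TyI K t w sw qw)
    (huL : u ∉ K⟮t⟯) (hvL : v ∈ K⟮t⟯) : Lin K t v := by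
  obtain ⟨lu, hlu, -, hus, hsu⟩ := hu
  obtain ⟨lw, hlw, -, hws, hsw⟩ := hw
  have hsuL : su ∉ K⟮t⟯ := by
    intro h
    exact huL (by rw [hus]; exact K⟮t⟯.add_mem (mem_L t lu) h)
  have hcm : ∀ c : K, algebraMap K F c ∈ K⟮t⟯ := fun c => K⟮t⟯.algebraMap_mem c
  set A := algebraMap K F α with hA
  set B := algebraMap K F β with hB
  set G := algebraMap K F γ with hG
  have hA0 : A ≠ 0 := by rw [hA]; simpa using hα
  have hB0 : B ≠ 0 := by rw [hB]; simpa using hβ
  have hAm : A ∈ K⟮t⟯ := hcm α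
  have hBm : B ∈ K⟮t⟯ := hcm β
  have hGm : G ∈ K⟮t⟯ := hcm γ
  set ω := -(A * aeval t lu) - B * v - G * aeval t lw with hω
  have hωm : ω ∈ K⟮t⟯ := K⟮t⟯.sub_mem (K⟮t⟯.sub_mem (K⟮t⟯.neg_mem (K⟮t⟯.mul_mem hAm (mem_L t lu)))
    (K⟮t⟯.mul_mem hBm hvL)) (K⟮t⟯.mul_mem hGm (mem_L t lw))
  have h1 : G * sw = ω - A * su := by
    rw [hus, hws] at hrel
    rw [hω]
    linear_combination hrel
  have h2 : (ω ^ 2 + A ^ 2 * aeval t qu - G ^ 2 * aeval t qw) + (-(2 * A * ω)) * su = 0 := by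
    have h3 : (G * sw) ^ 2 = (ω - A * su) ^ 2 := by rw [h1]
    rw [← hsu, ← hsw]
    linear_combination -h3
  have h4 : -(2 * A * ω) = 0 := by
    refine lin_of_root (L := K⟮t⟯) hsuL ?_ ?_ h2
    · exact K⟮t⟯.sub_mem (K⟮t⟯.add_mem (pow_mem hωm 2) (K⟮t⟯.mul_mem (pow_mem hAm 2)
        (mem_L t qu))) (K⟮t⟯.mul_mem (pow_mem hGm 2) (mem_L t qw))
    · have h2m : (2 : F) ∈ K⟮t⟯ := by
        have := hcm 2
        simpa using this
      exact K⟮t⟯.neg_mem (K⟮t⟯.mul_mem (K⟮t⟯.mul_mem h2m hAm) hωm)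
  have h20 : (2 : F) ≠ 0 := by
    have h9 := (algebraMap K F).injective.ne (two_ne_zero (α := K))
    rwa [map_ofNat, map_zero] at h9
  have h5 : ω = 0 := by
    rcases mul_eq_zero.1 (neg_eq_zero.1 h4) with h | h
    · exact absurd h (mul_ne_zero h20 hA0)
    · exact h
  refine ⟨C (-(α / β)) * lu - C (γ / β) * lw, ?_, ?_⟩
  · refine (natDegree_sub_le _ _).trans (max_le ?_ ?_)
    · exact (natDegree_C_mul_le _ _).trans hlu
    · exact (natDegree_C_mul_le _ _).trans hlw
  · rw [map_sub, map_mul, map_mul, aeval_C, aeval_C, map_neg, map_div₀, map_div₀, ← hA, ← hB, ← hG]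
    field_simp
    rw [hω] at h5
    linear_combination -h5

theorem sqf {q : K[X]} (h0 : q ≠ 0) (h2 : q.natDegree ≤ 2) (hns : ¬ ∃ p : K[X], q = p ^ 2) :
    Squarefree q := by
  intro x ⟨c, hc⟩
  by_contra hx
  have hx0 : x ≠ 0 := by rintro rfl; simp at hc; exact h0 hc
  have hc0 : c ≠ 0 := by rintro rfl; simp at hc; exact h0 hc
  have hxd : 1 ≤ x.natDegree := by
    by_contra h
    have : x.natDegree = 0 := by omega
    exact hx (isUnit_iff_degree_eq_zero.2 (by rw [degree_eq_natDegree hx0, this]; rfl))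
  have hd : q.natDegree = x.natDegree + x.natDegree + c.natDegree := by
    rw [hc, natDegree_mul (mul_ne_zero hx0 hx0) hc0, natDegree_mul hx0 hx0]
  have hcd : c.natDegree = 0 := by omega
  obtain ⟨κ, hκ⟩ := natDegree_eq_zero.1 hcd
  obtain ⟨δ, hδ⟩ := IsAlgClosed.exists_pow_nat_eq κ (n := 2) (by norm_num)
  refine hns ⟨C δ * x, ?_⟩
  rw [hc, ← hκ, ← hδ, C_pow]
  ring

theorem not_sq {t u s : F} {q : K[X]} (hu : TyI K t u s q) (huL : u ∉ K⟮t⟯) :
    s ∉ K⟮t⟯ ∧ (¬ ∃ p : K[X], q = p ^ 2) ∧ q ≠ 0 := by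
  obtain ⟨l, hl, -, hus, hs⟩ := hu
  have hsL : s ∉ K⟮t⟯ := by
    intro h
    exact huL (by rw [hus]; exact K⟮t⟯.add_mem (mem_L t l) h)
  have hns : ¬ ∃ p : K[X], q = p ^ 2 := by
    rintro ⟨p, rfl⟩
    rw [map_pow] at hs
    rcases sq_eq_sq_iff_eq_or_eq_neg.1 hs with h | h
    · exact hsL (by rw [h]; exact mem_L t p)
    · exact hsL (by rw [h]; exact K⟮t⟯.neg_mem (mem_L t p))
  exact ⟨hsL, hns, fun h => hns ⟨0, by simp [h]⟩⟩

theorem caseC {t u v w : F} (h : Transcendental K t) {α β γ : K} (hα : α ≠ 0) (hβ : β ≠ 0)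
    (hrel : algebraMap K F α * u + algebraMap K F β * v + algebraMap K F γ * w = 0)
    {su sv sw : F} {qu qv qw : K[X]} (hu : TyI K t u su qu) (hv : TyI K t v sv qv)
    (hw : TyI K t w sw qw) (huL : u ∉ K⟮t⟯) (hvL : v ∉ K⟮t⟯) : ¬ I4 K t u v := by
  obtain ⟨hsuL, hquns, hqu0⟩ := not_sq hu huL
  obtain ⟨hsvL, hqvns, hqv0⟩ := not_sq hv hvL
  obtain ⟨lu, hlu, hqu, hus, hsu⟩ := hu
  obtain ⟨lv, hlv, hqv, hvs, hsv⟩ := hv
  obtain ⟨lw, hlw, hqw, hws, hsw⟩ := hw
  have hcm : ∀ c : K, algebraMap K F c ∈ K⟮t⟯ := fun c => K⟮t⟯.algebraMap_mem c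
  set A := algebraMap K F α with hA
  set B := algebraMap K F β with hB
  set G := algebraMap K F γ with hG
  have hA0 : A ≠ 0 := by rw [hA]; simpa using hα
  have hB0 : B ≠ 0 := by rw [hB]; simpa using hβ
  have hAm : A ∈ K⟮t⟯ := hcm α
  have hBm : B ∈ K⟮t⟯ := hcm β
  have hGm : G ∈ K⟮t⟯ := hcm γ
  have h20 : (2 : F) ≠ 0 := by
    have h9 := (algebraMap K F).injective.ne (two_ne_zero (α := K))
    rwa [map_ofNat, map_zero] at h9
  have h2m : (2 : F) ∈ K⟮t⟯ := by
    have := hcm 2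
    simpa using this
  -- the affine function
  let lp : K[X] := -(C α * lu) - C β * lv - C γ * lw
  set l := aeval t lp with hl
  have hlm : l ∈ K⟮t⟯ := mem_L t lp
  have hle : l = -(A * aeval t lu) - B * aeval t lv - G * aeval t lw := by
    rw [hl]
    simp [lp, hA, hB, hG]
  have h1 : G * sw = l - A * su - B * sv := by
    rw [hle]
    rw [hus, hvs, hws] at hrel
    linear_combination hrel
  -- r
  let rp : K[X] := C γ ^ 2 * qw - lp ^ 2 - C α ^ 2 * qu - C β ^ 2 * qv
  set r := aeval t rp with hr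
  have hre : r = G ^ 2 * aeval t qw - l ^ 2 - A ^ 2 * aeval t qu - B ^ 2 * aeval t qv := by
    rw [hr]
    simp [rp, hA, hB, hG, hl]
  have hrm : r ∈ K⟮t⟯ := mem_L t rp
  have h2 : 2 * A * B * su * sv - 2 * l * A * su - 2 * l * B * sv = r := by
    have h3 : (G * sw) ^ 2 = (l - A * su - B * sv) ^ 2 := by rw [h1]
    rw [hre, ← hsu, ← hsv, ← hsw]
    linear_combination -h3
  have hDe : A ^ 2 * aeval t qu - l ^ 2 ≠ 0 := by
    intro h0
    rw [← hsu] at h0
    have h5 : (A * su) ^ 2 = l ^ 2 := by linear_combination h0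
    rcases sq_eq_sq_iff_eq_or_eq_neg.1 h5 with h6 | h6
    · refine hsuL ?_
      have : su = l / A := by field_simp; linear_combination h6
      rw [this]; exact K⟮t⟯.div_mem hlm hAm
    · refine hsuL ?_
      have : su = -l / A := by field_simp; linear_combination h6
      rw [this]; exact K⟮t⟯.div_mem (K⟮t⟯.neg_mem hlm) hAm
  have hDm : 2 * B * (A ^ 2 * aeval t qu - l ^ 2) ∈ K⟮t⟯ :=
    K⟮t⟯.mul_mem (K⟮t⟯.mul_mem h2m hBm) (K⟮t⟯.sub_mem (K⟮t⟯.mul_mem (pow_mem hAm 2) (mem_L t qu))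
      (pow_mem hlm 2))
  have hD0 : 2 * B * (A ^ 2 * aeval t qu - l ^ 2) ≠ 0 := mul_ne_zero (mul_ne_zero h20 hB0) hDe
  set D := 2 * B * (A ^ 2 * aeval t qu - l ^ 2) with hD
  set U := (r * l + 2 * l * A ^ 2 * aeval t qu) / D with hU
  set V := (r * A + 2 * l ^ 2 * A) / D with hV
  have hUm : U ∈ K⟮t⟯ := K⟮t⟯.div_mem (K⟮t⟯.add_mem (K⟮t⟯.mul_mem hrm hlm)
    (K⟮t⟯.mul_mem (K⟮t⟯.mul_mem (K⟮t⟯.mul_mem h2m hlm) (pow_mem hAm 2)) (mem_L t qu))) hDm
  have hVm : V ∈ K⟮t⟯ := K⟮t⟯.div_mem (K⟮t⟯.add_mem (K⟮t⟯.mul_mem hrm hAm)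
    (K⟮t⟯.mul_mem (K⟮t⟯.mul_mem h2m (pow_mem hlm 2)) hAm)) hDm
  have h3 : sv = U + V * su := by
    have h4 : sv * D = (r * l + 2 * l * A ^ 2 * aeval t qu) + (r * A + 2 * l ^ 2 * A) * su := by
      rw [hD, ← hsu]
      linear_combination (A * su + l) * h2
    rw [hU, hV]
    field_simp
    linear_combination h4
  have h4 : U * V = 0 := by
    have h5 : (U ^ 2 + V ^ 2 * aeval t qu - aeval t qv) + (2 * U * V) * su = 0 := by
      rw [← hsv, h3, ← hsu]
      ring
    have h6 := lin_of_root (L := K⟮t⟯) hsuL (K⟮t⟯.sub_mem (K⟮t⟯.add_mem (pow_mem hUm 2)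
      (K⟮t⟯.mul_mem (pow_mem hVm 2) (mem_L t qu))) (mem_L t qv))
      (K⟮t⟯.mul_mem (K⟮t⟯.mul_mem h2m hUm) hVm) h5
    have : 2 * (U * V) = 0 := by linear_combination h6
    exact (mul_eq_zero.1 this).resolve_left h20
  have hV0 : V ≠ 0 := by
    intro h5
    rw [h5, zero_mul, add_zero] at h3
    exact hsvL (h3 ▸ hUm)
  have hU0 : U = 0 := (mul_eq_zero.1 h4).resolve_right hV0
  rw [hU0, zero_add] at h3
  -- the constant case
  have hconst : ∀ κ : K, V = algebraMap K F κ → ¬ I4 K t u v := by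
    intro κ hκ hI
    have := (hI (C κ * lu - lv) ((natDegree_sub_le _ _).trans (max_le
      ((natDegree_C_mul_le _ _).trans hlu) hlv)) (-κ) 1 (by
        rw [map_sub, map_mul, aeval_C, map_neg, map_one, hus, hvs, h3, hκ]
        ring)).2.2
    exact one_ne_zero this
  have h5 : (2 * A * B * V * aeval t qu - r) + (-(2 * l * (A + B * V))) * su = 0 := by
    rw [← hsu]
    rw [h3] at h2
    linear_combination h2
  have h6 : -(2 * l * (A + B * V)) = 0 := lin_of_root (L := K⟮t⟯) hsuL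
    (K⟮t⟯.sub_mem (K⟮t⟯.mul_mem (K⟮t⟯.mul_mem (K⟮t⟯.mul_mem (K⟮t⟯.mul_mem h2m hAm) hBm) hVm)
      (mem_L t qu)) hrm)
    (K⟮t⟯.neg_mem (K⟮t⟯.mul_mem (K⟮t⟯.mul_mem h2m hlm) (K⟮t⟯.add_mem hAm (K⟮t⟯.mul_mem hBm hVm)))) h5
  rw [h6, zero_mul, add_zero] at h5
  -- V q_u = g
  let gp : K[X] := C (1 / (2 * α * β)) * rp
  have hg : V * aeval t qu = aeval t gp := by
    simp only [gp, map_mul, aeval_C, map_div₀, map_one, map_ofNat]
    rw [← hA, ← hB, ← hr]
    field_simp
    linear_combination h5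
  have hg2 : gp ^ 2 = qu * qv := by
    apply inj h
    have h9 : aeval t (gp ^ 2) = (aeval t gp) ^ 2 := map_pow _ _ _
    have h10 : aeval t (qu * qv) = aeval t qu * aeval t qv := map_mul _ _ _
    rw [h9, h10, ← hg, ← hsu, ← hsv, h3]
    ring
  have hsq1 := sqf hqu0 hqu hquns
  have hsq2 := sqf hqv0 hqv hqvns
  have hdv : qu ∣ gp := (hsq1.dvd_pow_iff_dvd two_ne_zero).1 ⟨qv, hg2⟩
  obtain ⟨g1, hg1⟩ := hdv
  have h7 : qv = g1 * g1 * qu := by
    have : qu * qv = qu * (g1 * g1 * qu) := by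
      rw [← hg2, hg1]; ring
    exact mul_left_cancel₀ hqu0 this
  have hunit : IsUnit g1 := hsq2 g1 ⟨qu, h7⟩
  obtain ⟨κ, -, hκ⟩ := isUnit_iff.1 hunit
  refine hconst κ ?_
  have h8 : V * aeval t qu = algebraMap K F κ * aeval t qu := by
    rw [hg, hg1, map_mul, ← hκ, aeval_C]
    ring
  exact mul_right_cancel₀ (ne0 h hqu0) h8

/-- four elements with three-dimensional numerators are dependent -/
theorem dep4 {t u v : F} (h : Transcendental K t) {e p q : K[X]} (he : e ≠ 0)
    (hed : e.natDegree ≤ 1) (hp : p.natDegree ≤ 2) (hq : q.natDegree ≤ 2)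
    (hu : aeval t e * u = aeval t p) (hv : aeval t e * v = aeval t q) : ¬ I4 K t u v := by
  intro hI
  let P : Fin 4 → K[X] := ![e, X * e, p, q]
  have hdeg : ∀ i, (P i).natDegree ≤ 2 := by
    intro i
    fin_cases i
    · simp [P]; omega
    · simp only [P]
      refine natDegree_mul_le.trans ?_
      simp; omega
    · simpa [P] using hp
    · simpa [P] using hq
  have hdep : ¬ LinearIndependent K (fun (i : Fin 4) (k : Fin 3) => (P i).coeff k) := by
    intro hli
    have := hli.fintype_card_le_finrank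
    simp at this
  rw [Fintype.not_linearIndependent_iff] at hdep
  obtain ⟨g, hg, i, hi⟩ := hdep
  have hsum : ∑ i, C (g i) * P i = 0 := by
    ext k
    rw [finset_sum_coeff, coeff_zero]
    simp only [coeff_C_mul]
    by_cases hk : k < 3
    · have := congrFun hg ⟨k, hk⟩
      simpa using this
    · refine Finset.sum_eq_zero fun i _ => ?_
      rw [coeff_eq_zero_of_natDegree_lt, mul_zero]
      have := hdeg i
      omega
  have hev := congrArg (aeval t) hsum
  simp only [P, Fin.sum_univ_four, map_add, map_mul, aeval_C, map_zero, aeval_X] at hev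
  simp only [Matrix.cons_val_zero, Matrix.cons_val_one, Matrix.cons_val] at hev
  have he' := ne0 h he
  have hfin : aeval t (C (g 0) + C (g 1) * X) + algebraMap K F (g 2) * u +
      algebraMap K F (g 3) * v = 0 := by
    have : aeval t e * (aeval t (C (g 0) + C (g 1) * X) + algebraMap K F (g 2) * u +
      algebraMap K F (g 3) * v) = 0 := by
      rw [map_add, map_mul, aeval_C, aeval_C, aeval_X]
      simp only [map_mul, aeval_X] at hev
      linear_combination hev + algebraMap K F (g 2) * hu + algebraMap K F (g 3) * hv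
    exact (mul_eq_zero.1 this).resolve_left he'
  obtain ⟨h1, h2, h3⟩ := hI _ (by
    refine (natDegree_add_le _ _).trans (max_le (by simp) ?_)
    exact (natDegree_C_mul_le _ _).trans natDegree_X_le) _ _ hfin
  have h0 : g 0 = 0 := by
    have := congrArg (fun p : K[X] => p.coeff 0) h1
    simpa using this
  have h11 : g 1 = 0 := by
    have := congrArg (fun p : K[X] => p.coeff 1) h1
    simpa [coeff_C] using this
  fin_cases i
  · exact hi h0
  · exact hi h11
  · exact hi h2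
  · exact hi h3

theorem prop4 {t u v : F} (h : Transcendental K t) {eu qu ev qv : K[X]} (hu : TyII K t u eu qu)
    (hv : TyII K t v ev qv) {κ : K} (hκ : κ ≠ 0) (hev : ev = C κ * eu) : ¬ I4 K t u v := by
  obtain ⟨he, hed, hqu, hu⟩ := hu
  obtain ⟨-, -, hqv, hv⟩ := hv
  refine dep4 h (q := C κ⁻¹ * qv) he hed hqu ((natDegree_C_mul_le _ _).trans hqv) hu ?_
  rw [map_mul, aeval_C, ← hv, hev, map_mul, aeval_C, map_inv₀]
  have : algebraMap K F κ ≠ 0 := by simpa using hκ
  field_simp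

theorem lin_factor {e : K[X]} (he : e ≠ 0) (hd : e.natDegree ≤ 1) {r : K} (hr : e.eval r = 0) :
    ∃ k : K, k ≠ 0 ∧ e = C k * (X - C r) := by
  obtain ⟨c, hc⟩ := dvd_iff_isRoot.2 hr
  have hc0 : c ≠ 0 := by rintro rfl; simp at hc; exact he hc
  have : e.natDegree = 1 + c.natDegree := by
    rw [hc, natDegree_mul (X_sub_C_ne_zero r) hc0, natDegree_X_sub_C]
  obtain ⟨k, hk⟩ := natDegree_eq_zero.1 (show c.natDegree = 0 by omega)
  refine ⟨k, ?_, by rw [hc, ← hk]; ring⟩
  rintro rfl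
  exact hc0 (by rw [← hk]; simp)

theorem not_common {t u v : F} (h : Transcendental K t) {eu qu ev qv : K[X]}
    (hu : TyII K t u eu qu) (hv : TyII K t v ev qv) (hI : I4 K t u v) {r : K}
    (hr : eu.eval r = 0) : ev.eval r ≠ 0 := by
  intro hr2
  obtain ⟨k, hk, hk2⟩ := lin_factor hu.1 hu.2.1 hr
  obtain ⟨k', hk', hk2'⟩ := lin_factor hv.1 hv.2.1 hr2
  refine prop4 h hu hv (κ := k' / k) (div_ne_zero hk' hk) ?_ hI
  rw [hk2, hk2', ← mul_assoc, ← C_mul]
  congr 2
  field_simp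

theorem deg0 {t u v w : F} (h : Transcendental K t) {α β γ : K} (hα : α ≠ 0)
    (hrel : algebraMap K F α * u + algebraMap K F β * v + algebraMap K F γ * w = 0)
    {eu qu ev qv ew qw : K[X]} (hu : TyII K t u eu qu) (hv : TyII K t v ev qv)
    (hw : TyII K t w ew qw) (Iuv : I4 K t u v) (Iuw : I4 K t u w) : eu.natDegree = 0 := by
  by_contra hd
  have hdeg : eu.degree ≠ 0 := by
    rw [degree_eq_natDegree hu.1]
    exact_mod_cast hd
  obtain ⟨r, hr⟩ := IsAlgClosed.exists_root eu hdeg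
  have hid : C α * qu * ev * ew + C β * qv * eu * ew + C γ * qw * eu * ev = 0 := by
    apply inj h
    simp only [map_add, map_mul, aeval_C, map_zero]
    rw [← hu.2.2.2, ← hv.2.2.2, ← hw.2.2.2]
    linear_combination (aeval t eu * aeval t ev * aeval t ew) * hrel
  have hr' : eu.eval r = 0 := hr
  have h1 := congrArg (fun p : K[X] => p.eval r) hid
  simp only [eval_add, eval_mul, eval_C, hr', mul_zero, zero_mul, add_zero, eval_zero] at h1
  have hv' := not_common h hu hv Iuv hr'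
  have hw' := not_common h hu hw Iuw hr'
  have hq : qu.eval r = 0 := by
    rcases mul_eq_zero.1 h1 with h2 | h2
    · rcases mul_eq_zero.1 h2 with h3 | h3
      · exact (mul_eq_zero.1 h3).resolve_left hα
      · exact absurd h3 hv'
    · exact absurd h2 hw'
  obtain ⟨k, hk, hk2⟩ := lin_factor hu.1 hu.2.1 hr'
  obtain ⟨c, hc⟩ := dvd_iff_isRoot.2 hq
  refine Iuv.not_lin ⟨C k⁻¹ * c, ?_, ?_⟩
  · refine (natDegree_C_mul_le _ _).trans ?_
    by_cases hc0 : c = 0
    · simp [hc0]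
    have h3 : qu.natDegree = 1 + c.natDegree := by
      rw [hc, natDegree_mul (X_sub_C_ne_zero r) hc0, natDegree_X_sub_C]
    have := hu.2.2.1
    omega
  · have h4 := hu.2.2.2
    rw [hk2, hc, map_mul, map_mul, aeval_C] at h4
    have h5 : aeval t (X - C r) ≠ 0 := ne0 h (X_sub_C_ne_zero r)
    have h6 : algebraMap K F k ≠ 0 := by simpa using hk
    rw [map_mul, aeval_C, map_inv₀]
    have h7 : aeval t (X - C r) * (algebraMap K F k * u - aeval t c) = 0 := by
      linear_combination h4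
    have h8 := (mul_eq_zero.1 h7).resolve_left h5
    field_simp
    linear_combination h8

theorem caseA {t u v w : F} (h : Transcendental K t) {α β γ : K} (hα : α ≠ 0) (hβ : β ≠ 0)
    (hrel : algebraMap K F α * u + algebraMap K F β * v + algebraMap K F γ * w = 0)
    {eu qu ev qv ew qw : K[X]} (hu : TyII K t u eu qu) (hv : TyII K t v ev qv)
    (hw : TyII K t w ew qw) (Iuv : I4 K t u v) (Iuw : I4 K t u w) (Ivw : I4 K t v w) : False := by
  have h1 := deg0 h hα hrel hu hv hw Iuv Iuw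
  have h2 := deg0 h hβ (by linear_combination hrel :
    algebraMap K F β * v + algebraMap K F α * u + algebraMap K F γ * w = 0) hv hu hw Iuv.symm Ivw
  obtain ⟨k, hk⟩ := natDegree_eq_zero.1 h1
  obtain ⟨k', hk'⟩ := natDegree_eq_zero.1 h2
  have hk0 : k ≠ 0 := by rintro rfl; exact hu.1 (by rw [← hk]; simp)
  have hk0' : k' ≠ 0 := by rintro rfl; exact hv.1 (by rw [← hk']; simp)
  refine prop4 h hu hv (κ := k' / k) (div_ne_zero hk0' hk0) ?_ Iuv
  rw [← hk, ← hk', ← C_mul]
  congr 1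
  field_simp

def Ty (K : Type) {F : Type} [Field K] [Field F] [Algebra K F] (t y : F) : Prop :=
  (∃ s q, TyI K t y s q) ∨ (∃ e q, TyII K t y e q)

theorem core {t u v w : F} {α β γ : K} (hα : α ≠ 0) (hβ : β ≠ 0) (hγ : γ ≠ 0)
    (hrel : algebraMap K F α * u + algebraMap K F β * v + algebraMap K F γ * w = 0)
    (Iuv : I4 K t u v) (Iuw : I4 K t u w) (Ivw : I4 K t v w)
    (Tu : Ty K t u) (Tv : Ty K t v) (Tw : Ty K t w) : False := by
  have h := transc Iuv
  have hin : ∀ y : F, ¬ Lin K t y → Ty K t y → y ∈ K⟮t⟯ → ∃ e q, TyII K t y e q := by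
    intro y hy hT hyL
    rcases hT with ⟨s, q, h1⟩ | h1
    · exact absurd (tyI_mem h h1 hyL) hy
    · exact h1
  have hout : ∀ y : F, Ty K t y → y ∉ K⟮t⟯ → ∃ s q, TyI K t y s q := by
    intro y hT hyL
    rcases hT with h1 | ⟨e, q, h1⟩
    · exact h1
    · exact absurd (tyII_mem h h1) hyL
  have hcm : ∀ c : K, algebraMap K F c ∈ K⟮t⟯ := fun c => K⟮t⟯.algebraMap_mem c
  have hthird : ∀ (x y z : F) (a b c : K), c ≠ 0 →
      algebraMap K F a * x + algebraMap K F b * y + algebraMap K F c * z = 0 →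
      x ∈ K⟮t⟯ → y ∈ K⟮t⟯ → z ∈ K⟮t⟯ := by
    intro x y z a b c hc h0 hx hy
    have hc' : algebraMap K F c ≠ 0 := by simpa using hc
    have : z = (-(algebraMap K F a * x) - algebraMap K F b * y) / algebraMap K F c := by
      field_simp
      linear_combination h0
    rw [this]
    exact K⟮t⟯.div_mem (K⟮t⟯.sub_mem (K⟮t⟯.neg_mem (K⟮t⟯.mul_mem (hcm a) hx))
      (K⟮t⟯.mul_mem (hcm b) hy)) (hcm c)
  have nu := Iuv.not_lin
  have nv := Iuv.symm.not_lin
  have nw := Iuw.symm.not_lin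
  by_cases hu : u ∈ K⟮t⟯ <;> by_cases hv : v ∈ K⟮t⟯
  · have hw := hthird u v w α β γ hγ hrel hu hv
    obtain ⟨eu, qu, h1⟩ := hin u nu Tu hu
    obtain ⟨ev, qv, h2⟩ := hin v nv Tv hv
    obtain ⟨ew, qw, h3⟩ := hin w nw Tw hw
    exact caseA h hα hβ hrel h1 h2 h3 Iuv Iuw Ivw
  · have hw : w ∉ K⟮t⟯ := by
      intro hw
      exact hv (hthird u w v α γ β hβ (by linear_combination hrel) hu hw)
    obtain ⟨sv, qv, h2⟩ := hout v Tv hv
    obtain ⟨sw, qw, h3⟩ := hout w Tw hw
    exact nu (caseB (α := β) (β := α) (γ := γ) hβ hα (by linear_combination hrel) h2 h3 hv hu)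
  · have hw : w ∉ K⟮t⟯ := by
      intro hw
      exact hu (hthird v w u β γ α hα (by linear_combination hrel) hv hw)
    obtain ⟨su, qu, h2⟩ := hout u Tu hu
    obtain ⟨sw, qw, h3⟩ := hout w Tw hw
    exact nv (caseB (α := α) (β := β) (γ := γ) hα hβ (by linear_combination hrel) h2 h3 hu hv)
  · obtain ⟨su, qu, h1⟩ := hout u Tu hu
    obtain ⟨sv, qv, h2⟩ := hout v Tv hv
    by_cases hw : w ∈ K⟮t⟯
    · exact nw (caseB (α := α) (β := γ) (γ := β) hα hγ (by linear_combination hrel) h1 h2 hu hw)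
    · obtain ⟨sw, qw, h3⟩ := hout w Tw hw
      exact caseC h hα hβ hrel h1 h2 h3 hu hv Iuv

theorem natDegree_lin (a b : K) : (C a + C b * X : K[X]).natDegree ≤ 1 := by
  refine (natDegree_add_le _ _).trans (max_le (by simp) ?_)
  exact (natDegree_C_mul_le _ _).trans natDegree_X_le

theorem natDegree_quad (a b c : K) : (C a + C b * X + C c * X ^ 2 : K[X]).natDegree ≤ 2 := by
  refine (natDegree_add_le _ _).trans (max_le ((natDegree_lin a b).trans (by norm_num)) ?_)
  exact (natDegree_C_mul_le _ _).trans (by simp)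

theorem li3 {t u v : F} (h : I4 K t u v) : LinearIndependent K ![1, t, u] := by
  rw [Fintype.linearIndependent_iff]
  intro g hg
  rw [Fin.sum_univ_three] at hg
  simp only [Matrix.cons_val_zero, Matrix.cons_val_one, Matrix.cons_val, Algebra.smul_def] at hg
  obtain ⟨h1, h2, -⟩ := h (C (g 0) + C (g 1) * X) (natDegree_lin _ _) (g 2) 0 (by
    simp only [map_add, map_mul, aeval_C, aeval_X, map_zero]
    linear_combination hg)
  have h0 : g 0 = 0 := by
    have := congrArg (fun p : K[X] => p.coeff 0) h1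
    simpa using this
  have h11 : g 1 = 0 := by
    have := congrArg (fun p : K[X] => p.coeff 1) h1
    simpa [coeff_C] using this
  intro i
  fin_cases i
  · exact h0
  · exact h11
  · exact h2

theorem qad (h1 : T_QCL) : T_QAD := by
  intro K F _ _ _ _ _ t y1 y2 a b hli ha hb hq1 hq2 hq3
  have I12 : I4 K t y1 y2 := by
    intro l hl c d h0
    have hlX : l = C (l.coeff 0) + C (l.coeff 1) * X := by
      conv_lhs => rw [eq_X_add_C_of_natDegree_le_one hl]
      ring
    rw [hlX] at h0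
    simp only [map_add, map_mul, aeval_C, aeval_X] at h0
    rw [Fintype.linearIndependent_iff] at hli
    have h2 := hli ![l.coeff 0, l.coeff 1, c, d] (by
      rw [Fin.sum_univ_four]
      simp only [Matrix.cons_val_zero, Matrix.cons_val_one, Matrix.cons_val, Algebra.smul_def]
      linear_combination h0)
    have e0 := h2 0
    have e1 := h2 1
    have e2 := h2 2
    have e3 := h2 3
    simp at e0 e1 e2 e3
    refine ⟨?_, e2, e3⟩
    rw [hlX, e0, e1]
    simp
  have I13 : I4 K t y1 (algebraMap K F a * y1 + algebraMap K F b * y2) := by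
    intro l hl c d h0
    obtain ⟨h2, h3, h4⟩ := I12 l hl (c + d * a) (d * b) (by
      simp only [map_add, map_mul]
      linear_combination h0)
    have h5 : d = 0 := (mul_eq_zero.1 h4).resolve_right hb
    rw [h5] at h3
    exact ⟨h2, by simpa using h3, h5⟩
  have I23 : I4 K t y2 (algebraMap K F a * y1 + algebraMap K F b * y2) := by
    intro l hl c d h0
    obtain ⟨h2, h3, h4⟩ := I12 l hl (d * a) (c + d * b) (by
      simp only [map_add, map_mul]
      linear_combination h0)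
    have h5 : d = 0 := (mul_eq_zero.1 h3).resolve_right ha
    rw [h5] at h4
    exact ⟨h2, by simpa using h4, h5⟩
  have hTy : ∀ y z : F, I4 K t y z → (∃ Q : MvPolynomial (Fin 2) K, Q ≠ 0 ∧ Q.totalDegree ≤ 2 ∧
      MvPolynomial.aeval ![t, y] Q = 0) → Ty K t y := by
    intro y z hI hQ
    rcases h1 K F t y (li3 hI) hQ with ⟨l0, l1, q0, q1, q2, h⟩ | ⟨e0, e1, q0, q1, q2, he, h⟩
    · refine Or.inl ⟨y - algebraMap K F l0 - algebraMap K F l1 * t, C q0 + C q1 * X + C q2 * X ^ 2,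
        C l0 + C l1 * X, natDegree_lin _ _, natDegree_quad _ _ _, ?_, ?_⟩
      · simp only [map_add, map_mul, aeval_C, aeval_X]
        ring
      · rw [h]
        simp only [map_add, map_mul, aeval_C, aeval_X, map_pow]
    · refine Or.inr ⟨C e0 + C e1 * X, C q0 + C q1 * X + C q2 * X ^ 2, ?_, natDegree_lin _ _,
        natDegree_quad _ _ _, ?_⟩
      · intro h0
        have h2 : e0 = 0 := by
          have := congrArg (fun p : K[X] => p.coeff 0) h0
          simpa using this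
        have h3 : e1 = 0 := by
          have := congrArg (fun p : K[X] => p.coeff 1) h0
          simpa [coeff_C] using this
        rcases he with he | he
        · exact he h2
        · exact he h3
      · simp only [map_add, map_mul, aeval_C, aeval_X, map_pow]
        exact h
  exact core (α := a) (β := b) (γ := -1) ha hb (by simp) (by simp only [map_neg, map_one]; ring)
    I12 I13 I23 (hTy _ _ I12 hq1) (hTy _ _ I23 hq2) (hTy _ _ I13.symm hq3)

end Pool.Agent.H35.BF
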