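import Pool.Agent.H72.BF.Targets5

open Polynomial Finset Filter

namespace Pool.Agent.H35.BF.RD

open Pool.Agent.H72.BF

variable (K : Type) [Field K]

/-- two variable polynomials as iterated polynomials -/
noncomputable def Φ : MvPolynomial (Fin 2) K →+* K[X][X] :=
  MvPolynomial.eval₂Hom (C.comp C) ![C X, X]

/-- and back -/
noncomputable def Ψ : K[X][X] →+* MvPolynomial (Fin 2) K :=
  Polynomial.eval₂RingHom (Polynomial.eval₂RingHom MvPolynomial.C (MvPolynomial.X 0)) (MvPolynomial.X 1)

variable {K}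

theorem ΦΨ (P : K[X][X]) : Φ K (Ψ K P) = P := by
  have : (Φ K).comp (Ψ K) = RingHom.id _ := by
    ext x : 2 <;> simp [Φ, Ψ]
    ext; simp
  exact congrArg (fun f => f P) this

theorem ΨΦ (P : MvPolynomial (Fin 2) K) : Ψ K (Φ K P) = P := by
  have : (Ψ K).comp (Φ K) = RingHom.id _ := by
    ext x : 2
    · simp [Φ, Ψ]
    · fin_cases x <;> simp [Φ, Ψ]
  exact congrArg (fun f => f P) this

/-- the coefficients -/
theorem coeff_Φ (P : MvPolynomial (Fin 2) K) (n k : ℕ) :
    ((Φ K P).coeff n).coeff k = P.coeff (Finsupp.equivFunOnFinite.symm ![k, n]) := by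
  induction P using MvPolynomial.induction_on' with
  | monomial u a =>
    have h1 : Φ K (MvPolynomial.monomial u a) = C (C a * X ^ (u 0)) * X ^ (u 1) := by
      rw [Φ, MvPolynomial.coe_eval₂Hom, MvPolynomial.eval₂_monomial, Finsupp.prod_fintype]
      · simp; ring
      · simp
    rw [h1, coeff_C_mul, coeff_X_pow, MvPolynomial.coeff_monomial]
    by_cases hu : u = Finsupp.equivFunOnFinite.symm ![k, n]
    · rw [if_pos hu]
      subst hu
      simp
    · rw [if_neg hu]
      by_cases h2 : n = u 1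
      · by_cases h3 : k = u 0
        · exfalso
          apply hu
          ext i
          fin_cases i
          · simp [h3]
          · simp [h2]
        · simp [h2, coeff_C_mul, coeff_X_pow, h3]
      · simp [h2]
  | add p q hp hq => rw [map_add, coeff_add, coeff_add, hp, hq, MvPolynomial.coeff_add]

theorem aeval_Ψ {F : Type} [Field F] [Algebra K F] (t z : F) (P : K[X][X]) :
    MvPolynomial.aeval ![t, z] (Ψ K P) = P.eval₂ (aeval t : K[X] →ₐ[K] F).toRingHom z := by
  have : (MvPolynomial.aeval ![t, z] : MvPolynomial (Fin 2) K →ₐ[K] F).toRingHom.comp (Ψ K) =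
      Polynomial.eval₂RingHom (aeval t : K[X] →ₐ[K] F).toRingHom z := by
    ext x <;> simp [Ψ]
  exact congrArg (fun f => f P) this

/-- bound of the total degree of an iterated polynomial -/
def TD (P : K[X][X]) (d : ℕ) : Prop := ∀ n k, d < n + k → (P.coeff n).coeff k = 0

theorem totalDegree_le_iff (P : MvPolynomial (Fin 2) K) (d : ℕ) :
    P.totalDegree ≤ d ↔ TD (Φ K P) d := by
  constructor
  · intro h n k hnk
    rw [coeff_Φ]
    apply MvPolynomial.coeff_eq_zero_of_totalDegree_lt
    refine lt_of_le_of_lt h (lt_of_lt_of_le hnk ?_)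
    have : ∑ i ∈ (Finsupp.equivFunOnFinite.symm ![k, n] : Fin 2 →₀ ℕ).support,
        (Finsupp.equivFunOnFinite.symm ![k, n] : Fin 2 →₀ ℕ) i = k + n := by
      rw [Finset.sum_subset (Finset.subset_univ _)]
      · simp
      · intro x _ hx
        exact Finsupp.notMem_support_iff.mp hx
    rw [this, add_comm]
  · intro h
    refine Finset.sup_le fun s hs => ?_
    by_contra hlt
    push Not at hlt
    rw [MvPolynomial.mem_support_iff] at hs
    apply hs
    have h1 : s.sum (fun _ e => e) = s 0 + s 1 := by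
      rw [Finsupp.sum_fintype _ _ (fun _ => rfl)]
      simp
    have h2 : s = Finsupp.equivFunOnFinite.symm ![s 0, s 1] := by
      ext i
      fin_cases i <;> simp
    rw [h2, ← coeff_Φ]
    apply h
    rw [h1] at hlt
    omega

theorem relD_iff {F : Type} [Field F] [Algebra K F] (t z : F) (d : ℕ) :
    RelD K t d z ↔ ∃ P : K[X][X], P ≠ 0 ∧ TD P d ∧ P.eval₂ (aeval t : K[X] →ₐ[K] F).toRingHom z = 0 := by
  constructor
  · rintro ⟨Q, hQ, hd, h0⟩
    refine ⟨Φ K Q, ?_, (totalDegree_le_iff Q d).mp hd, ?_⟩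
    · intro h
      apply hQ
      rw [← ΨΦ Q, h, map_zero]
    · rw [← aeval_Ψ, ΨΦ]; exact h0
  · rintro ⟨P, hP, hd, h0⟩
    refine ⟨Ψ K P, ?_, ?_, ?_⟩
    · intro h
      apply hP
      rw [← ΦΨ P, h, map_zero]
    · rw [totalDegree_le_iff, ΦΨ]; exact hd
    · rw [aeval_Ψ]; exact h0

end Pool.Agent.H35.BF.RD
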