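import Pool.Agent.H35.BF.RD
import Mathlib.RingTheory.Polynomial.GaussLemma
import Mathlib.RingTheory.UniqueFactorizationDomain.GCDMonoid

open Polynomial Finset Filter

namespace Pool.Agent.H35.BF.ST

open Pool.Agent.H72.BF Pool.Agent.H35.BF.RD

/-- the split form -/
noncomputable def NN {Ω : Type} [CommRing Ω] {m e : ℕ} (ω : Fin e → Fin m → Ω) :
    (MvPolynomial (Fin m) Ω)[X] :=
  ∏ i, (X - C (∑ j, MvPolynomial.C (ω i j) * MvPolynomial.X j))

theorem NN_monic {Ω : Type} [Field Ω] {m e : ℕ} (ω : Fin e → Fin m → Ω) : (NN ω).Monic :=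
  Polynomial.monic_prod_of_monic _ _ fun _ _ => monic_X_sub_C _

theorem NN_natDegree {Ω : Type} [Field Ω] {m e : ℕ} (ω : Fin e → Fin m → Ω) :
    (NN ω).natDegree = e := by
  rw [NN, Polynomial.natDegree_prod_of_monic _ _ fun _ _ => monic_X_sub_C _]
  simp only [natDegree_X_sub_C]
  simp

/-- scaling the roots -/
theorem NN_scale {Ω : Type} [Field Ω] {m e : ℕ} (ω : Fin e → Fin m → Ω) (τ : Ω) (hτ : τ ≠ 0)
    (n : ℕ) : MvPolynomial.C (τ ^ e) * (NN (fun i j => τ⁻¹ * ω i j)).coeff n =
      MvPolynomial.C (τ ^ n) * (NN ω).coeff n := by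
  have h1 : (NN ω).comp (C (MvPolynomial.C τ) * X) =
      C (MvPolynomial.C (τ ^ e)) * NN (fun i j => τ⁻¹ * ω i j) := by
    have h2 : (C (MvPolynomial.C (τ ^ e)) : (MvPolynomial (Fin m) Ω)[X]) =
        ∏ _i : Fin e, C (MvPolynomial.C τ) := by
      rw [Finset.prod_const, Finset.card_univ, Fintype.card_fin, map_pow, map_pow]
    rw [h2, NN, NN, ← Finset.prod_mul_distrib, Polynomial.prod_comp]
    refine Finset.prod_congr rfl fun i _ => ?_
    rw [sub_comp, X_comp, C_comp, mul_sub, ← C_mul, Finset.mul_sum]
    congr 1
    refine congrArg C (Finset.sum_congr rfl fun j _ => ?_)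
    rw [← mul_assoc, ← MvPolynomial.C_mul, ← mul_assoc, mul_inv_cancel₀ hτ, one_mul]
  have h3 := congrArg (fun P => Polynomial.coeff P n) h1
  simp only [comp_C_mul_X_coeff, coeff_C_mul] at h3
  rw [← h3, MvPolynomial.C_pow, mul_comm]

/-- changing the coefficients -/
theorem exists_cf {A B : Type} [CommRing A] [CommRing B] {m : ℕ} (G : (MvPolynomial (Fin m) A)[X])
    (f : ℕ → A → B) (hf : ∀ n, f n 0 = 0) :
    ∃ G' : (MvPolynomial (Fin m) B)[X], ∀ n α, (G'.coeff n).coeff α = f n ((G.coeff n).coeff α) := by
  classical
  refine ⟨∑ n ∈ G.support, Polynomial.monomial n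
    (∑ α ∈ (G.coeff n).support, MvPolynomial.monomial α (f n ((G.coeff n).coeff α))), ?_⟩
  intro n α
  rw [Polynomial.finsetSum_coeff]
  simp only [Polynomial.coeff_monomial]
  by_cases hn : n ∈ G.support
  · rw [Finset.sum_eq_single n, if_pos rfl, MvPolynomial.coeff_sum]
    · simp only [MvPolynomial.coeff_monomial]
      by_cases hα : α ∈ (G.coeff n).support
      · rw [Finset.sum_eq_single α, if_pos rfl]
        · intro b _ hb; rw [if_neg hb]
        · intro h; exact absurd hα h
      · rw [Finset.sum_eq_zero]
        · rw [MvPolynomial.notMem_support_iff.mp hα, hf]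
        · intro b hb; rw [if_neg]; rintro rfl; exact hα hb
    · intro b _ hb; rw [if_neg hb]
    · intro h; exact absurd hn h
  · rw [Finset.sum_eq_zero, MvPolynomial.coeff_zero]
    · rw [Polynomial.notMem_support_iff.mp hn, MvPolynomial.coeff_zero, hf]
    · intro b hb; rw [if_neg]; rintro rfl; exact hn hb

variable {K : Type} [Field K] {m : ℕ}

/-- specialisation of the form -/
noncomputable def Gv (G : (MvPolynomial (Fin m) K[X])[X]) (v : Fin m → K) : K[X][X] :=
  G.map (MvPolynomial.eval (fun j => C (v j)))

theorem coeff_Gv (G : (MvPolynomial (Fin m) K[X])[X]) (v : Fin m → K) (n k : ℕ) :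
    ((Gv G v).coeff n).coeff k =
      ∑ α ∈ (G.coeff n).support, ((G.coeff n).coeff α).coeff k * ∏ j, v j ^ α j := by
  rw [Gv, Polynomial.coeff_map, MvPolynomial.eval_eq', Polynomial.finsetSum_coeff]
  refine Finset.sum_congr rfl fun α _ => ?_
  have : (∏ j, (C (v j) : K[X]) ^ α j) = C (∏ j, v j ^ α j) := by
    rw [map_prod]
    simp
  rw [this, coeff_mul_C]

theorem ev_ev (v : Fin m → K) (c : K) (P : MvPolynomial (Fin m) K[X]) :
    MvPolynomial.eval₂Hom (aeval c : K[X] →ₐ[K] K).toRingHom (fun j => algebraMap K K (v j)) P =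
      aeval c (MvPolynomial.eval (fun j => C (v j)) P) := by
  have : MvPolynomial.eval₂Hom (aeval c : K[X] →ₐ[K] K).toRingHom (fun j => algebraMap K K (v j)) =
      (aeval c : K[X] →ₐ[K] K).toRingHom.comp (MvPolynomial.eval (fun j => C (v j))) := by
    apply MvPolynomial.ringHom_ext
    · intro a
      rw [RingHom.comp_apply, MvPolynomial.eval_C]
      exact MvPolynomial.eval₂_C _ _ _
    · intro i
      rw [RingHom.comp_apply, MvPolynomial.eval_X]
      refine (MvPolynomial.eval₂_X _ _ _).trans ?_
      exact (aeval_C c (v i)).symm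
  rw [this]
  rfl

/-- dividing by a primitive specialisation -/
theorem dvd_of_roots {Ω : Type} [Field Ω] (ψ : K[X] →+* Ω) (hψ : Function.Injective ψ) {e : ℕ}
    (z : Fin e → Ω) (hz : Function.Injective z) (g : Ω) (hg : g ≠ 0) (P Q : K[X][X])
    (hP : P.IsPrimitive) (hPz : P.map ψ = C g * ∏ i, (X - C (z i))) (hQ : ∀ i, Q.eval₂ ψ (z i) = 0) :
    P ∣ Q := by
  let Fr := FractionRing K[X]
  let f : Fr →+* Ω := IsFractionRing.lift hψ
  have hf : f.comp (algebraMap K[X] Fr) = ψ := by
    ext x
    · simp [f]
    · simp [f]
  apply hP.dvd_of_fraction_map_dvd_fraction_map (K := Fr)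
  rw [← Polynomial.map_dvd_map' f, Polynomial.map_map, Polynomial.map_map, hf, hPz]
  have h1 : ∏ i, (X - C (z i)) ∣ Q.map ψ := by
    apply Fintype.prod_dvd_of_coprime (pairwise_coprime_X_sub_C hz)
    intro i
    rw [dvd_iff_isRoot, IsRoot, eval_map]
    exact hQ i
  exact (IsUnit.mul_left_dvd (isUnit_C.mpr (isUnit_iff_ne_zero.mpr hg))).mpr h1

end Pool.Agent.H35.BF.ST

open Pool.Agent.H72.BF Pool.Agent.H35.BF.RD Pool.Agent.H35.BF.ST in
theorem Pool.Agent.H35.BF.stp (h1 : T_NRM) (h2 : T_LFS) : T_STP := by
  classical
  intro d m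
  obtain ⟨B, hB⟩ := h1 d m
  refine ⟨B * B + B * B + B, ?_⟩
  intro K F _ _ _ _ _ t ht w hw
  obtain ⟨Ω, iΩ, iFΩ, e, ω, g, G, heB, hgB, hg0, ⟨i0, hi0⟩, hdist, hG, hprim, hroot⟩ := hB K F t ht w hw
  let evt : K[X] →+* F := (aeval t : K[X] →ₐ[K] F).toRingHom
  have hevt : Function.Injective evt := transcendental_iff_injective.mp ht
  let ψ : K[X] →+* Ω := (algebraMap F Ω).comp evt
  have hψ : Function.Injective ψ := (algebraMap F Ω).injective.comp hevt
  have hG' : G.map (MvPolynomial.map ψ) = C (MvPolynomial.C (ψ g)) * NN ω := hG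
  have hψg : ψ g ≠ 0 := by
    intro h
    exact hg0 (hψ (by rw [h, map_zero]))
  let z : (Fin m → K) → Fin e → Ω := fun v i => ∑ j, algebraMap F Ω (algebraMap K F (v j)) * ω i j
  have hψC : ∀ c, ψ (C c) = algebraMap F Ω (algebraMap K F c) := by
    intro c
    change algebraMap F Ω (aeval t (C c)) = _
    rw [aeval_C]
  have hGv : ∀ v, (Gv G v).map ψ = C (ψ g) * ∏ i, (X - C (z v i)) := by
    intro v
    have h3 : (Gv G v).map ψ = (G.map (MvPolynomial.map ψ)).map
        (MvPolynomial.eval (fun j => ψ (C (v j)))) := by
      rw [Gv, Polynomial.map_map, Polynomial.map_map]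
      congr 1
      apply MvPolynomial.ringHom_ext
      · intro a; simp
      · intro a; simp
    rw [h3, hG', Polynomial.map_mul, Polynomial.map_C, MvPolynomial.eval_C, NN, Polynomial.map_prod]
    congr 1
    refine Finset.prod_congr rfl fun i _ => ?_
    rw [Polynomial.map_sub, Polynomial.map_X, Polynomial.map_C, map_sum]
    congr 2
    refine Finset.sum_congr rfl fun j _ => ?_
    rw [map_mul, MvPolynomial.eval_C, MvPolynomial.eval_X, hψC, mul_comm]
  have hGe : G.coeff e = MvPolynomial.C g := by
    apply MvPolynomial.map_injective ψ hψ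
    rw [← Polynomial.coeff_map, hG', coeff_C_mul]
    have h3 := (NN_monic ω).coeff_natDegree
    rw [NN_natDegree] at h3
    rw [h3, mul_one, MvPolynomial.map_C]
  have hGve : ∀ v, (Gv G v).coeff e = g := by
    intro v
    rw [Gv, Polynomial.coeff_map, hGe, MvPolynomial.eval_C]
  have hGv0 : ∀ v, Gv G v ≠ 0 := by
    intro v h
    have := hGve v
    rw [h, coeff_zero] at this
    exact hg0 this.symm
  by_cases hcase : ∀ n α k, d < n + k → ((G.coeff n).coeff α).coeff k = 0
  · left
    intro v
    rw [relD_iff]
    refine ⟨Gv G v, hGv0 v, ?_, ?_⟩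
    · intro n k hnk
      rw [coeff_Gv]
      refine Finset.sum_eq_zero fun α _ => ?_
      rw [hcase n α k hnk, zero_mul]
    · apply (algebraMap F Ω).injective
      rw [map_zero, Polynomial.hom_eval₂]
      change (Gv G v).eval₂ ψ _ = 0
      rw [← eval_map, hGv, eval_mul, eval_prod]
      rw [Finset.prod_eq_zero (Finset.mem_univ i0), mul_zero]
      rw [eval_sub, eval_X, eval_C, map_sum]
      simp only [z]
      rw [sub_eq_zero]
      refine Finset.sum_congr rfl fun j _ => ?_
      rw [map_mul, hi0]
  · right
    -- the maximal total degree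
    have hbdd : ∃ T0, ∀ n α k, ((G.coeff n).coeff α).coeff k ≠ 0 → n + k ≤ T0 := by
      refine ⟨G.natDegree + ∑ n ∈ G.support, ∑ α ∈ (G.coeff n).support, ((G.coeff n).coeff α).natDegree, ?_⟩
      intro n α k hne
      have h3 : G.coeff n ≠ 0 := by
        intro h; rw [h] at hne; simp at hne
      have h4 : (G.coeff n).coeff α ≠ 0 := by
        intro h; rw [h] at hne; simp at hne
      have h5 : n ≤ G.natDegree := le_natDegree_of_ne_zero h3
      have h6 : k ≤ ((G.coeff n).coeff α).natDegree := le_natDegree_of_ne_zero hne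
      have h7 : ((G.coeff n).coeff α).natDegree ≤
          ∑ α ∈ (G.coeff n).support, ((G.coeff n).coeff α).natDegree :=
        Finset.single_le_sum (f := fun α => ((G.coeff n).coeff α).natDegree)
          (fun _ _ => Nat.zero_le _) (MvPolynomial.mem_support_iff.mpr h4)
      have h8 : ∑ α ∈ (G.coeff n).support, ((G.coeff n).coeff α).natDegree ≤
          ∑ n ∈ G.support, ∑ α ∈ (G.coeff n).support, ((G.coeff n).coeff α).natDegree :=
        Finset.single_le_sum (f := fun n => ∑ α ∈ (G.coeff n).support, ((G.coeff n).coeff α).natDegree)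
          (fun _ _ => Nat.zero_le _) (Polynomial.mem_support_iff.mpr h3)
      omega
    push Not at hcase
    obtain ⟨T, hTmax, hdT, n1, α1, k1, hnk1, hne1⟩ : ∃ T,
        (∀ n α k, ((G.coeff n).coeff α).coeff k ≠ 0 → n + k ≤ T) ∧ d < T ∧
        ∃ n1 α1 k1, n1 + k1 = T ∧ ((G.coeff n1).coeff α1).coeff k1 ≠ 0 := by
      obtain ⟨n0, α0, k0, hd0, hne0⟩ := hcase
      refine ⟨Nat.find hbdd, Nat.find_spec hbdd, ?_, ?_⟩
      · exact lt_of_lt_of_le hd0 (Nat.find_spec hbdd n0 α0 k0 hne0)
      · by_contra hcon
        push Not at hcon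
        have hpos : 0 < Nat.find hbdd := lt_of_le_of_lt (Nat.zero_le d)
          (lt_of_lt_of_le hd0 (Nat.find_spec hbdd n0 α0 k0 hne0))
        refine Nat.find_min hbdd (m := Nat.find hbdd - 1) (by omega) ?_
        intro n α k hne
        have h3 := Nat.find_spec hbdd n α k hne
        have h4 : n + k ≠ Nat.find hbdd := fun h => hne (hcon n α k h)
        omega
    have hdegT : ∀ n α, (G.coeff n).coeff α ≠ 0 → n + ((G.coeff n).coeff α).natDegree ≤ T := by
      intro n α h
      exact hTmax n α _ (leadingCoeff_ne_zero.mpr h)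
    -- (c1)
    have hc1 : ∀ c : K, ∃ Hs : Finset (Submodule K (Fin m → K)), Hs.card ≤ e ∧ (∀ U ∈ Hs, U ≠ ⊤) ∧
        ∀ v : Fin m → K, (∀ n, aeval c ((Gv G v).coeff n) = 0) → ∃ U ∈ Hs, v ∈ U := by
      intro c
      obtain ⟨Hs, hHs1, hHs2, hHs3⟩ := h2 K K[X] Ω K ψ (aeval c) m e ω (ψ g) G hψ hG' (by
        have h3 : (aeval c : K[X] →ₐ[K] K).toRingHom = evalRingHom c := by
          ext x <;> simp
        rw [h3]
        exact hprim c)
      refine ⟨Hs, hHs1, hHs2, fun v hv => hHs3 v ?_⟩
      ext n : 1
      rw [Polynomial.coeff_map, ev_ev, Polynomial.coeff_zero]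
      have := hv n
      rw [Gv, Polynomial.coeff_map] at this
      exact this
    choose Hc hc1 hc2 hc3 using hc1
    -- (c2)
    obtain ⟨G1, hG1⟩ := exists_cf G (fun n c => reflect (T - n) c) (fun n => reflect_zero)
    let τ : Ω := algebraMap F Ω t
    have hτ0 : τ ≠ 0 := by
      intro h
      have h3 : t = 0 := (algebraMap F Ω).injective (by rw [map_zero]; exact h)
      have h4 : (X : K[X]) = 0 := hevt (by
        change aeval t X = aeval t 0
        rw [aeval_X, map_zero, h3])
      exact X_ne_zero h4
    let ψ1 : K[X] →+* Ω := Polynomial.eval₂RingHom ((algebraMap F Ω).comp (algebraMap K F)) τ⁻¹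
    have hψev : ∀ p, ψ p = Polynomial.eval₂ ((algebraMap F Ω).comp (algebraMap K F)) τ p := by
      intro p
      change algebraMap F Ω (aeval t p) = _
      rw [aeval_def, Polynomial.hom_eval₂]
    have hrefl : ∀ (N : ℕ) (p : K[X]), p.natDegree ≤ N → ψ1 (reflect N p) * τ ^ N = ψ p := by
      intro N p hp
      let _ : Invertible τ := invertibleOfNonzero hτ0
      have h3 := Polynomial.eval₂_reflect_mul_pow ((algebraMap F Ω).comp (algebraMap K F)) τ N p hp
      rw [invOf_eq_inv] at h3
      rw [hψev]
      exact h3
    have hψ1 : Function.Injective ψ1 := by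
      rw [injective_iff_map_eq_zero]
      intro p hp
      have h3 := hrefl p.natDegree (reflect p.natDegree p) (by
        exact le_trans (natDegree_reflect_le) (by simp))
      have h4 : reflect p.natDegree (reflect p.natDegree p) = p := by
        ext i
        rw [coeff_reflect, coeff_reflect, revAt_invol]
      rw [h4, hp, zero_mul] at h3
      have h5 : reflect p.natDegree p = 0 := hψ (by rw [← h3, map_zero])
      exact reflect_eq_zero_iff.mp h5
    have hG1m : G1.map (MvPolynomial.map ψ1) = C (MvPolynomial.C (ψ g * τ ^ e / τ ^ T)) *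
        NN (fun i j => τ⁻¹ * ω i j) := by
      ext n α
      rw [Polynomial.coeff_map, MvPolynomial.coeff_map, hG1, coeff_C_mul, MvPolynomial.coeff_C_mul]
      have h3 := congrArg (MvPolynomial.coeff α) (NN_scale ω τ hτ0 n)
      rw [MvPolynomial.coeff_C_mul, MvPolynomial.coeff_C_mul] at h3
      have h4 := congrArg (fun P => MvPolynomial.coeff α (Polynomial.coeff P n)) hG'
      simp only [Polynomial.coeff_map, MvPolynomial.coeff_map, coeff_C_mul,
        MvPolynomial.coeff_C_mul] at h4
      have hτT : τ ^ T ≠ 0 := pow_ne_zero _ hτ0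
      have h5 : ψ1 (reflect (T - n) ((G.coeff n).coeff α)) * τ ^ T =
          τ ^ n * ψ ((G.coeff n).coeff α) := by
        by_cases h0 : (G.coeff n).coeff α = 0
        · rw [h0, reflect_zero, map_zero, map_zero]; ring
        · have h6 := hdegT n α h0
          have h7 : τ ^ T = τ ^ (T - n) * τ ^ n := by rw [← pow_add]; congr 1; omega
          rw [h7, ← mul_assoc, hrefl _ _ (by omega)]
          ring
      rw [div_mul_eq_mul_div, eq_div_iff hτT, h5, h4, mul_assoc, h3]
      ring
    obtain ⟨Hz, hinf1, hinf2, hinf3⟩ := h2 K K[X] Ω K ψ1 (aeval 0) m e (fun i j => τ⁻¹ * ω i j)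
      (ψ g * τ ^ e / τ ^ T) G1 hψ1 hG1m (by
        intro h
        have h3 := congrArg (fun P => MvPolynomial.coeff α1 (Polynomial.coeff P n1)) h
        simp only [Polynomial.coeff_map, MvPolynomial.coeff_map, Polynomial.coeff_zero,
          MvPolynomial.coeff_zero, hG1] at h3
        change aeval (0 : K) (reflect (T - n1) ((G.coeff n1).coeff α1)) = 0 at h3
        rw [← Polynomial.coeff_zero_eq_aeval_zero, coeff_reflect, revAt_zero] at h3
        apply hne1
        rw [← h3]
        congr 1
        omega)
    -- (b)
    let Ub : Fin e × Fin e → Submodule K (Fin m → K) := fun p =>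
      { carrier := {v | z v p.1 = z v p.2}
        add_mem' := by
          intro v v' hv hv'
          change z (v + v') p.1 = z (v + v') p.2
          have hv1 : z v p.1 = z v p.2 := hv
          have hv2 : z v' p.1 = z v' p.2 := hv'
          have hadd : ∀ i, z (v + v') i = z v i + z v' i := by
            intro i
            simp only [z, Pi.add_apply, map_add, add_mul, Finset.sum_add_distrib]
          rw [hadd, hadd, hv1, hv2]
        zero_mem' := by
          change z 0 p.1 = z 0 p.2
          simp [z]
        smul_mem' := by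
          intro c v hv
          change z (c • v) p.1 = z (c • v) p.2
          have hv1 : z v p.1 = z v p.2 := hv
          have hsm : ∀ i, z (c • v) i = algebraMap F Ω (algebraMap K F c) * z v i := by
            intro i
            simp only [z, Pi.smul_apply, smul_eq_mul, map_mul, Finset.mul_sum, mul_assoc]
          rw [hsm, hsm, hv1] }
    let Hb : Finset (Submodule K (Fin m → K)) :=
      ((Finset.univ : Finset (Fin e × Fin e)).filter fun p => p.1 ≠ p.2).image Ub
    refine ⟨Hb ∪ g.roots.toFinset.biUnion Hc ∪ Hz, ?_, ?_, ?_⟩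
    · have hb : Hb.card ≤ B * B := by
        refine le_trans Finset.card_image_le (le_trans (Finset.card_filter_le _ _) ?_)
        rw [Finset.card_univ, Fintype.card_prod, Fintype.card_fin]
        exact Nat.mul_le_mul heB heB
      have hc : (g.roots.toFinset.biUnion Hc).card ≤ B * B := by
        refine le_trans (Finset.card_biUnion_le_card_mul _ _ e fun c _ => hc1 c) ?_
        exact Nat.mul_le_mul (le_trans (Multiset.toFinset_card_le _) (le_trans (card_roots' _) hgB)) heB
      have h3 := Finset.card_union_le (Hb ∪ g.roots.toFinset.biUnion Hc) Hz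
      have h4 := Finset.card_union_le Hb (g.roots.toFinset.biUnion Hc)
      omega
    · intro U hU
      rcases Finset.mem_union.mp hU with hU | hU
      · rcases Finset.mem_union.mp hU with hU | hU
        · obtain ⟨p, hp, rfl⟩ := Finset.mem_image.mp hU
          have hne := (Finset.mem_filter.mp hp).2
          intro htop
          apply hdist p.1 p.2 hne
          ext j
          have h3 : (Pi.single j 1 : Fin m → K) ∈ Ub p := by rw [htop]; trivial
          have h4 : z (Pi.single j 1) p.1 = z (Pi.single j 1) p.2 := h3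
          have h5 : ∀ i, z (Pi.single j 1) i = ω i j := by
            intro i
            simp only [z]
            rw [Finset.sum_eq_single j]
            · rw [Pi.single_eq_same, map_one, map_one, one_mul]
            · intro b _ hb
              rw [Pi.single_eq_of_ne hb, map_zero, map_zero, zero_mul]
            · intro h; exact absurd (Finset.mem_univ _) h
          rw [h5, h5] at h4
          exact h4
        · obtain ⟨c, _, hc⟩ := Finset.mem_biUnion.mp hU
          exact hc2 c U hc
      · exact hinf2 U hU
    · intro v hv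
      by_cases hzinj : Function.Injective (z v)
      · by_cases hP : (Gv G v).IsPrimitive
        · obtain ⟨Q, hQ0, hQd, hQr⟩ := (relD_iff t _ d).mp hv
          have h3 := hroot v Q hQr
          have h4 : Gv G v ∣ Q := dvd_of_roots ψ hψ (z v) hzinj (ψ g) hψg (Gv G v) Q hP (hGv v) h3
          obtain ⟨S, hS⟩ := h4
          have h5 : TD (Gv G v) d := by
            have h6 : Ψ K Q = Ψ K (Gv G v) * Ψ K S := by rw [hS, map_mul]
            have hΨ0 : ∀ P : K[X][X], P ≠ 0 → Ψ K P ≠ 0 := by
              intro P hP h
              apply hP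
              rw [← ΦΨ P, h, map_zero]
            have hS0 : S ≠ 0 := by
              rintro rfl
              rw [mul_zero] at hS
              exact hQ0 hS
            have h7 := congrArg MvPolynomial.totalDegree h6
            rw [MvPolynomial.totalDegree_mul_of_isDomain (hΨ0 _ (hGv0 v)) (hΨ0 _ hS0)] at h7
            have h8 : (Ψ K Q).totalDegree ≤ d := by
              rw [totalDegree_le_iff, ΦΨ]; exact hQd
            have h9 : (Ψ K (Gv G v)).totalDegree ≤ d := by omega
            rw [totalDegree_le_iff, ΦΨ] at h9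
            exact h9
          obtain ⟨U, hU, hvU⟩ := hinf3 v (by
            ext n : 1
            rw [Polynomial.coeff_map, ev_ev, Polynomial.coeff_zero, ← Polynomial.coeff_zero_eq_aeval_zero]
            have h6 : ∀ k, (MvPolynomial.eval (fun j => C (v j)) (G1.coeff n)).coeff k =
                ∑ α ∈ (G1.coeff n).support, ((G1.coeff n).coeff α).coeff k * ∏ j, v j ^ α j := by
              intro k
              have := coeff_Gv G1 v n k
              rw [Gv, Polynomial.coeff_map] at this
              exact this
            rw [h6]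
            have h7 : (G1.coeff n).support ⊆ (G.coeff n).support := by
              intro α hα
              rw [MvPolynomial.mem_support_iff] at hα ⊢
              intro h
              apply hα
              rw [hG1, h]
              exact reflect_zero
            rw [Finset.sum_subset h7]
            · by_cases hn : n ≤ T
              · have h8 := h5 n (T - n) (by omega)
                rw [coeff_Gv] at h8
                rw [← h8]
                refine Finset.sum_congr rfl fun α _ => ?_
                rw [hG1, coeff_reflect, revAt_zero]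
              · refine Finset.sum_eq_zero fun α hα => ?_
                exfalso
                have := hdegT n α (MvPolynomial.mem_support_iff.mp hα)
                omega
            · intro α _ hα
              rw [MvPolynomial.notMem_support_iff.mp hα, coeff_zero, zero_mul])
          exact ⟨U, Finset.mem_union_right _ hU, hvU⟩
        · -- not primitive
          rw [Polynomial.IsPrimitive] at hP
          push Not at hP
          obtain ⟨r, hr, hru⟩ := hP
          have hrd := (Polynomial.C_dvd_iff_dvd_coeff r (Gv G v)).mp hr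
          have hr0 : r ≠ 0 := by
            rintro rfl
            have := hrd e
            rw [hGve, zero_dvd_iff] at this
            exact hg0 this
          have hrdeg : r.degree ≠ 0 := by
            intro h
            exact hru (Polynomial.isUnit_iff_degree_eq_zero.mpr h)
          obtain ⟨c, hc⟩ := IsAlgClosed.exists_root r hrdeg
          have hcn : ∀ n, aeval c ((Gv G v).coeff n) = 0 := by
            intro n
            obtain ⟨s, hs⟩ := hrd n
            rw [hs, map_mul]
            have : aeval c r = 0 := by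
              rw [Polynomial.coe_aeval_eq_eval]; exact hc
            rw [this, zero_mul]
          obtain ⟨U, hU, hvU⟩ := hc3 c v hcn
          refine ⟨U, Finset.mem_union_left _ (Finset.mem_union_right _
            (Finset.mem_biUnion.mpr ⟨c, ?_, hU⟩)), hvU⟩
          rw [Multiset.mem_toFinset, mem_roots hg0, IsRoot]
          have := hcn e
          rw [hGve, Polynomial.coe_aeval_eq_eval] at this
          exact this
      · rw [Function.Injective] at hzinj
        push Not at hzinj
        obtain ⟨i, i', hii, hne⟩ := hzinj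
        refine ⟨Ub (i, i'), Finset.mem_union_left _ (Finset.mem_union_left _
          (Finset.mem_image_of_mem _ (Finset.mem_filter.mpr ⟨Finset.mem_univ _, hne⟩))), ?_⟩
        exact hii
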