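import Pool.Agent.H72.BF.Targets4
import Mathlib.RingTheory.Trace.Basic

open Polynomial Finset Filter

namespace Pool.Agent.H35.BF.Z

open Pool.Agent.H72.BF
open scoped Pointwise

section alg

variable {L F : Type} [Field L] [Field F] [Algebra L F]

/-- powers of a span containing `1` stabilise at the dimension -/
theorem pow_stab (M : Submodule L F) (h1 : (1 : F) ∈ M) (E0 : Submodule L F)
    [FiniteDimensional L E0] (N : ℕ) (hN : Module.finrank L E0 ≤ N) (hM : ∀ j, M ^ j ≤ E0) :
    M ^ N * M ^ N ≤ M ^ N := by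
  have hone : (1 : Submodule L F) ≤ M := by
    rw [Submodule.one_le]; exact h1
  have hmono : ∀ j, M ^ j ≤ M ^ (j + 1) := by
    intro j
    calc M ^ j = M ^ j * 1 := by rw [mul_one]
      _ ≤ M ^ j * M := mul_le_mul' le_rfl hone
      _ = M ^ (j + 1) := by rw [pow_succ]
  have hfd : ∀ j, FiniteDimensional L (M ^ j : Submodule L F) := fun j =>
    Submodule.finiteDimensional_of_le (hM j)
  have hstab : ∃ j < N + 1, M ^ j = M ^ (j + 1) := by
    by_contra hcon
    push Not at hcon
    have hlt : ∀ j < N + 1, M ^ j < M ^ (j + 1) := fun j hj => lt_of_le_of_ne (hmono j) (hcon j hj)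
    have : ∀ j, j ≤ N + 1 → j ≤ Module.finrank L (M ^ j : Submodule L F) := by
      intro j
      induction j with
      | zero => intro _; exact Nat.zero_le _
      | succ j ih =>
        intro hj
        have h2 := ih (by omega)
        have := hfd (j + 1)
        have h3 := Submodule.finrank_lt_finrank_of_lt (hlt j (by omega))
        omega
    have h4 := this (N + 1) le_rfl
    have h5 := Submodule.finrank_mono (hM (N + 1))
    omega
  obtain ⟨j, hj, hj2⟩ := hstab
  have hst : ∀ i, M ^ (j + i) = M ^ j := by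
    intro i
    induction i with
    | zero => rfl
    | succ i ih => rw [← add_assoc, pow_succ, ih, ← pow_succ, ← hj2]
  have e1 : M ^ N = M ^ j := by
    obtain ⟨i, rfl⟩ := Nat.exists_eq_add_of_le (Nat.lt_succ_iff.mp hj)
    exact hst i
  have e2 : M ^ (N + N) = M ^ j := by
    obtain ⟨i, hi⟩ := Nat.exists_eq_add_of_le (show j ≤ N + N by omega)
    rw [hi]; exact hst i
  rw [← pow_add, e2, e1]

/-- the field generated by a set inside a finite extension is the span of bounded products -/
theorem adjoin_span (S : Set F) (h1 : (1 : F) ∈ S) (E0 : IntermediateField L F)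
    [FiniteDimensional L E0] (N : ℕ) (hN0 : 1 ≤ N) (hN : Module.finrank L E0 ≤ N)
    (hS : S ⊆ E0) (x : F) (hx : x ∈ IntermediateField.adjoin L S) :
    x ∈ Submodule.span L (S ^ N) := by
  have halg : ∀ x ∈ S, IsAlgebraic L x := by
    intro x hx
    exact (IntermediateField.isAlgebraic_iff (K := L) (S := E0) (x := ⟨x, hS hx⟩)).mp
      (Algebra.IsAlgebraic.isAlgebraic _)
  have hpow : ∀ j, (Submodule.span L S) ^ j ≤ Subalgebra.toSubmodule E0.toSubalgebra := by
    intro j
    rw [Submodule.span_pow, Submodule.span_le]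
    intro y hy
    induction j generalizing y with
    | zero =>
      rw [pow_zero] at hy
      rw [Set.mem_one.mp hy]
      exact E0.one_mem
    | succ j ih =>
      rw [pow_succ] at hy
      obtain ⟨a, ha, b, hb, rfl⟩ := Set.mem_mul.mp hy
      exact E0.mul_mem (ih ha) (hS hb)
  have hfd : FiniteDimensional L (Subalgebra.toSubmodule E0.toSubalgebra) :=
    (inferInstance : FiniteDimensional L E0)
  have hst := pow_stab (Submodule.span L S) (Submodule.subset_span h1)
    (Subalgebra.toSubmodule E0.toSubalgebra) N hN hpow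
  have hle : Submodule.span L S ≤ (Submodule.span L S) ^ N := by
    have hone : (1 : Submodule L F) ≤ Submodule.span L S := by
      rw [Submodule.one_le]; exact Submodule.subset_span h1
    obtain ⟨i, rfl⟩ := Nat.exists_eq_add_of_le hN0
    rw [pow_add, pow_one]
    calc Submodule.span L S = Submodule.span L S * 1 := by rw [mul_one]
      _ ≤ _ := mul_le_mul' le_rfl (by
        calc (1 : Submodule L F) = 1 ^ i := by rw [one_pow]
          _ ≤ _ := pow_le_pow_left' hone i)
  have hx2 : x ∈ Algebra.adjoin L S := by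
    rw [← IntermediateField.adjoin_toSubalgebra_of_isAlgebraic halg]
    exact hx
  have hx3 : x ∈ Subalgebra.toSubmodule (Algebra.adjoin L S) := hx2
  rw [Algebra.adjoin_eq_span] at hx3
  rw [← Submodule.span_pow]
  refine Submodule.span_le.mpr ?_ hx3
  intro y hy
  induction hy using Submonoid.closure_induction with
  | mem y hy => exact hle (Submodule.subset_span hy)
  | one => exact hle (Submodule.subset_span h1)
  | mul a b _ _ ha hb => exact hst (Submodule.mul_mem_mul ha hb)

/-- a basis consisting of bounded products -/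
theorem exists_basis (S : Set F) (h1 : (1 : F) ∈ S) (E0 : IntermediateField L F)
    [FiniteDimensional L E0] (N : ℕ) (hN0 : 1 ≤ N) (hN : Module.finrank L E0 ≤ N)
    (hS : S ⊆ E0) : FiniteDimensional L (IntermediateField.adjoin L S) ∧
    ∃ n : ℕ, n ≤ N ∧ ∃ b : Fin n → IntermediateField.adjoin L S,
      (∀ i, (b i : F) ∈ S ^ N) ∧ Submodule.span L (Set.range b) = ⊤ := by
  have hle : IntermediateField.adjoin L S ≤ E0 := IntermediateField.adjoin_le_iff.mpr hS
  have hfd : FiniteDimensional L (IntermediateField.adjoin L S) :=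
    Submodule.finiteDimensional_of_le (S₁ := Subalgebra.toSubmodule
      (IntermediateField.adjoin L S).toSubalgebra) (S₂ := Subalgebra.toSubmodule E0.toSubalgebra) hle
  refine ⟨hfd, ?_⟩
  have hfr : Module.finrank L (IntermediateField.adjoin L S) ≤ N :=
    le_trans (Submodule.finrank_mono (s := Subalgebra.toSubmodule
      (IntermediateField.adjoin L S).toSubalgebra) (t := Subalgebra.toSubmodule E0.toSubalgebra) hle) hN
  set T : Set (IntermediateField.adjoin L S) := {y | (y : F) ∈ S ^ N} with hT
  have hTspan : Submodule.span L T = ⊤ := by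
    rw [eq_top_iff]
    rintro ⟨x, hx⟩ _
    have h2 := adjoin_span S h1 E0 N hN0 hN hS x hx
    have h3 : S ^ N ⊆ IntermediateField.adjoin L S := by
      have : ∀ j, S ^ j ⊆ IntermediateField.adjoin L S := by
        intro j y hy
        induction j generalizing y with
        | zero =>
          rw [pow_zero] at hy
          rw [Set.mem_one.mp hy]
          exact IntermediateField.one_mem _
        | succ j ih =>
          rw [pow_succ] at hy
          obtain ⟨a, ha, b, hb, rfl⟩ := Set.mem_mul.mp hy
          exact IntermediateField.mul_mem _ (ih ha) (IntermediateField.subset_adjoin L S hb)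
      exact this N
    have h4 : S ^ N = (IntermediateField.adjoin L S).val.toLinearMap '' T := by
      ext y
      constructor
      · intro hy
        exact ⟨⟨y, h3 hy⟩, hy, rfl⟩
      · rintro ⟨y', hy', rfl⟩
        exact hy'
    rw [h4, ← Submodule.map_span] at h2
    obtain ⟨y, hy, hy2⟩ := h2
    have : y = ⟨x, hx⟩ := Subtype.ext hy2
    rw [← this]; exact hy
  obtain ⟨b, hb1, hb2, hb3⟩ := exists_linearIndependent L T
  have hfin : b.Finite := hb3.setFinite
  have := hfin.fintype
  have hcard : Fintype.card b ≤ N := le_trans hb3.fintype_card_le_finrank hfr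
  refine ⟨Fintype.card b, hcard, fun i => ((Fintype.equivFin b).symm i).1, ?_, ?_⟩
  · intro i
    exact hb1 ((Fintype.equivFin b).symm i).2
  · rw [← hTspan, ← hb2]
    congr 1
    ext y
    constructor
    · rintro ⟨i, rfl⟩
      exact ((Fintype.equivFin b).symm i).2
    · intro hy
      exact ⟨Fintype.equivFin b ⟨y, hy⟩, by simp⟩

theorem exists_basis' (S : Set F) (h1 : (1 : F) ∈ S) (E0 : IntermediateField L F)
    [FiniteDimensional L E0] (N : ℕ) (hN0 : 1 ≤ N) (hN : Module.finrank L E0 ≤ N)
    (hS : S ⊆ E0) : ∃ E1 : IntermediateField L F, S ⊆ E1 ∧ FiniteDimensional L E1 ∧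
    ∃ n : ℕ, n ≤ N ∧ ∃ b : Fin n → E1,
      (∀ i, (b i : F) ∈ S ^ N) ∧ Submodule.span L (Set.range b) = ⊤ :=
  ⟨_, IntermediateField.subset_adjoin L S, exists_basis S h1 E0 N hN0 hN hS⟩

end alg

theorem fint_pow (h1 : T_FIA) {K F : Type} [Field K] [Field F] [Algebra K F] {r : ℕ}
    (t : Fin r → F) (S : Set F) (B : ℕ) (hS : ∀ x ∈ S, FInt K t B x) (j : ℕ) :
    ∀ x ∈ S ^ j, FInt K t (B * j) x := by
  obtain ⟨i1, i2, i3, i4⟩ := h1 K F r t
  induction j with
  | zero =>
    intro x hx
    rw [pow_zero] at hx
    rw [Set.mem_one.mp hx]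
    have := i1 1 0 (by simp)
    simpa using this
  | succ j ih =>
    intro x hx
    rw [pow_succ] at hx
    obtain ⟨a, ha, b, hb, rfl⟩ := Set.mem_mul.mp hx
    exact i2 _ _ _ (by rw [Nat.mul_succ]) (i4 _ _ _ _ (ih a ha) (hS b hb))

/-- the trace of a filtered integral element is a polynomial of bounded degree -/
theorem trace_poly (h2 : T_FIE) {K F : Type} [Field K] [CharZero K] [Field F] [Algebra K F] {r : ℕ}
    (t : Fin r → F) (ht : AlgebraicIndependent K t) (E1 : IntermediateField (EE' K t) F)
    [FiniteDimensional (EE' K t) E1] (E : ℕ) (x : E1) (hx : FInt K t E (x : F)) :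
    ∃ p : MvPolynomial (Fin r) K, p.totalDegree ≤ E ∧
      ((Algebra.trace (EE' K t) E1 x : EE' K t) : F) = MvPolynomial.aeval t p := by
  obtain ⟨_, h4⟩ := h2 K F r t ht
  obtain ⟨c, hc0, hcE, hc⟩ := h4 E (x : F) hx
  have hm : minpoly (EE' K t) (x : F) = minpoly (EE' K t) x :=
    minpoly.algebraMap_eq (B' := F) (Subtype.val_injective) x
  rw [trace_eq_finrank_mul_minpoly_nextCoeff, ← hm]
  have hint : IsIntegral (EE' K t) (x : F) := by
    have h5 : IsIntegral (EE' K t) x := Algebra.IsIntegral.isIntegral x
    exact h5.map E1.val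
  have hdeg : 0 < (minpoly (EE' K t) (x : F)).natDegree := minpoly.natDegree_pos hint
  have hnc : (minpoly (EE' K t) (x : F)).nextCoeff =
      (minpoly (EE' K t) (x : F)).coeff ((minpoly (EE' K t) (x : F)).natDegree - 1) := by
    rw [Polynomial.nextCoeff_of_natDegree_pos hdeg]
  have h6 := hc 1 hdeg
  refine ⟨-(MvPolynomial.C ((Module.finrank (IntermediateField.adjoin (EE' K t) {x}) E1 : ℕ) : K) * c 1), ?_, ?_⟩
  · rw [MvPolynomial.totalDegree_neg]
    refine le_trans (MvPolynomial.totalDegree_mul _ _) ?_
    rw [MvPolynomial.totalDegree_C, zero_add]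
    have := hcE 1
    simpa using this
  · rw [hnc]
    push_cast
    rw [h6]
    simp

theorem _root_.Pool.Agent.H35.BF.zd (h1 : T_FIA) (h2 : T_FIE) : T_ZD := by
  intro r N B
  refine ⟨N * (B + B * N + 1) ^ r, ?_⟩
  intro K F _ _ _ _ t ht E0 hfd0 hN0 m z hz hzE hzB
  obtain ⟨i1, i2, i3, i4⟩ := h1 K F r t
  have hNpos : 1 ≤ N := le_trans (Nat.one_le_iff_ne_zero.mpr
    (Module.finrank_pos (R := EE' K t) (M := E0)).ne') hN0
  set S : Set F := insert 1 (Set.range z) with hS
  have hSE : S ⊆ E0 := by
    intro x hx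
    rcases hx with rfl | ⟨i, rfl⟩
    · exact E0.one_mem
    · exact hzE i
  have hSB : ∀ x ∈ S, FInt K t B x := by
    intro x hx
    rcases hx with rfl | ⟨i, rfl⟩
    · have := i1 1 0 (by simp)
      exact i2 0 B 1 (Nat.zero_le _) (by simpa using this)
    · exact hzB i
  obtain ⟨E1, hSE1, hfd, n, hn, b, hb1, hb2⟩ := exists_basis' (L := EE' K t) S
    (Set.mem_insert _ _) E0 N hNpos hN0 hSE
  have hzm : ∀ i, z i ∈ E1 := fun i => hSE1 (Set.mem_insert_of_mem _ ⟨i, rfl⟩)
  set D := B + B * N with hD
  have hp : ∀ (i : Fin m) (j : Fin n), ∃ p : MvPolynomial (Fin r) K, p.totalDegree ≤ D ∧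
      ((Algebra.trace (EE' K t) E1 (⟨z i, hzm i⟩ * b j) : EE' K t) : F) = MvPolynomial.aeval t p := by
    intro i j
    refine trace_poly h2 t ht E1 D _ ?_
    exact i4 _ _ _ _ (hzB i) (fint_pow h1 t S B hSB N _ (hb1 j))
  choose p hpd hpt using hp
  let v : Fin m → (Fin n × (Fin r → Fin (D + 1)) → K) := fun i x =>
    (p i x.1).coeff (Finsupp.equivFunOnFinite.symm (fun a => (x.2 a : ℕ)))
  have hv : LinearIndependent K v := by
    rw [Fintype.linearIndependent_iff]
    intro g hg
    have hP : ∀ j, ∑ i, MvPolynomial.C (g i) * p i j = 0 := by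
      intro j
      ext e
      rw [MvPolynomial.coeff_sum, MvPolynomial.coeff_zero]
      by_cases he : ∀ a, e a ≤ D
      · have := congrFun hg (j, fun a => ⟨e a, Nat.lt_succ_of_le (he a)⟩)
        simp only [Finset.sum_apply, Pi.smul_apply, v, smul_eq_mul, Pi.zero_apply] at this
        rw [← this]
        refine Finset.sum_congr rfl fun i _ => ?_
        rw [MvPolynomial.coeff_C_mul]
        congr 2
        ext a
        simp
      · push Not at he
        obtain ⟨a, ha⟩ := he
        refine Finset.sum_eq_zero fun i _ => ?_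
        rw [MvPolynomial.coeff_C_mul, MvPolynomial.coeff_eq_zero_of_totalDegree_lt, mul_zero]
        refine lt_of_le_of_lt (hpd i j) (lt_of_lt_of_le ha ?_)
        by_cases hea : a ∈ e.support
        · exact Finset.single_le_sum (f := fun a => e a) (fun _ _ => Nat.zero_le _) hea
        · rw [Finsupp.notMem_support_iff.mp hea]; exact Nat.zero_le _
    let y : E1 := ∑ i, (algebraMap K (EE' K t) (g i)) • (⟨z i, hzm i⟩ : E1)
    have hy1 : ∀ j, Algebra.trace (EE' K t) E1 (y * b j) = 0 := by
      intro j
      apply Subtype.val_injective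
      have e1 : y * b j = ∑ i, (algebraMap K (EE' K t) (g i)) • ((⟨z i, hzm i⟩ : E1) * b j) := by
        simp only [y, Finset.sum_mul, smul_mul_assoc]
      rw [e1, map_sum]
      have e2 : ∀ i, Algebra.trace (EE' K t) E1
          ((algebraMap K (EE' K t) (g i)) • ((⟨z i, hzm i⟩ : E1) * b j)) =
          algebraMap K (EE' K t) (g i) * Algebra.trace (EE' K t) E1 ((⟨z i, hzm i⟩ : E1) * b j) := by
        intro i; rw [map_smul, smul_eq_mul]
      rw [Finset.sum_congr rfl fun i _ => e2 i]
      push_cast
      rw [Finset.sum_congr rfl fun i _ => by rw [hpt i j]]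
      have e3 := congrArg (MvPolynomial.aeval t) (hP j)
      rw [map_sum, map_zero] at e3
      simp only [map_mul, MvPolynomial.aeval_C] at e3
      exact e3
    have hy2 : ∀ x, Algebra.trace (EE' K t) E1 (y * x) = 0 := by
      intro x
      have hx : x ∈ Submodule.span (EE' K t) (Set.range b) := by rw [hb2]; trivial
      induction hx using Submodule.span_induction with
      | mem x hx => obtain ⟨j, rfl⟩ := hx; exact hy1 j
      | zero => rw [mul_zero, map_zero]
      | add a c _ _ ha hc => rw [mul_add, map_add, ha, hc, add_zero]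
      | smul a c _ hc => rw [mul_smul_comm, map_smul, hc, smul_zero]
    have hy0 : y = 0 := by
      have hnd := traceForm_nondegenerate (EE' K t) E1
      exact hnd.1 y hy2
    rw [Fintype.linearIndependent_iff] at hz
    apply hz g
    have e5 := congrArg (Subtype.val) hy0
    have e6 : (y : F) = ∑ i, g i • z i := by
      simp only [y]
      push_cast
      refine Finset.sum_congr rfl fun i _ => ?_
      rw [Algebra.smul_def, Algebra.smul_def]
      rfl
    rw [← e6, hy0]; rfl
  have hcard := hv.fintype_card_le_finrank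
  rw [Module.finrank_fintype_fun_eq_card] at hcard
  simp only [Fintype.card_fin, Fintype.card_prod, Fintype.card_fun] at hcard
  exact le_trans hcard (Nat.mul_le_mul_right _ hn)

end Pool.Agent.H35.BF.Z
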